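import Pool.Agent.Q26.GP.Ex

/-!
# Relations of bounded degree decide whether a subtorsor is stable under a group with perfect Lie algebra
-/

set_option autoImplicit false
set_option linter.unusedSectionVars false

open Matrix

namespace Pool.Agent.Q26.GP

open Pool.Agent.TH127.PT Pool.Agent.Y123.ST Pool.Agent.TH119.DR

variable {B : Type} [Fintype B] [DecidableEq B] {K : Subfield ℂ} {T : Set (Matrix B B ℂ)}

/-- the relation -/
noncomputable def rl (M : ℕ) (v : Matrix B B ℂ) (l : B × B → ℂ) (x y z w : Matrix B B ℂ) : ℂ :=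
  lf l ((x * y.adjugate) ^ M * (z * w.adjugate) ^ M * v * (w * z.adjugate) ^ M * (y * x.adjugate) ^ M -
    (z * w.adjugate) ^ M * (x * y.adjugate) ^ M * v * (y * x.adjugate) ^ M * (w * z.adjugate) ^ M)

theorem rl_x (M : ℕ) (v : Matrix B B ℂ) (l : B × B → ℂ) (y z w : Matrix B B ℂ) :
    PFn (M * (1 + adeg B)) (fun x => rl M v l x y z w) := by
  have h1 : PMn (B := B) (M * 1) (fun x => (x * y.adjugate) ^ M) := (PMn.id.mul (PMn.const y.adjugate)).pow M
  have h2 : PMn (B := B) (M * adeg B) (fun x => (y * x.adjugate) ^ M) := by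
    have := ((PMn.const y).mul (PMn.adj (B := B))).pow M
    rwa [zero_add] at this
  have h3 : PMn (B := B) 0 (fun _ => (z * w.adjugate) ^ M) := PMn.const _
  have h4 : PMn (B := B) 0 (fun _ => (w * z.adjugate) ^ M) := PMn.const _
  have h5 : PMn (B := B) 0 (fun _ => v) := PMn.const _
  refine PMn.lf ?_ l
  refine PMn.sub ?_ ?_
  · refine ((((h1.mul h3).mul h5).mul h4).mul h2).mono (le_of_eq (by ring))
  · refine ((((h3.mul h1).mul h5).mul h2).mul h4).mono (le_of_eq (by ring))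

theorem rl_z (M : ℕ) (v : Matrix B B ℂ) (l : B × B → ℂ) (x y w : Matrix B B ℂ) :
    PFn (M * (1 + adeg B)) (fun z => rl M v l x y z w) := by
  have h1 : PMn (B := B) (M * 1) (fun z => (z * w.adjugate) ^ M) := (PMn.id.mul (PMn.const w.adjugate)).pow M
  have h2 : PMn (B := B) (M * adeg B) (fun z => (w * z.adjugate) ^ M) := by
    have := ((PMn.const w).mul (PMn.adj (B := B))).pow M
    rwa [zero_add] at this
  have h3 : PMn (B := B) 0 (fun _ => (x * y.adjugate) ^ M) := PMn.const _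
  have h4 : PMn (B := B) 0 (fun _ => (y * x.adjugate) ^ M) := PMn.const _
  have h5 : PMn (B := B) 0 (fun _ => v) := PMn.const _
  refine PMn.lf ?_ l
  refine PMn.sub ?_ ?_
  · refine ((((h3.mul h1).mul h5).mul h2).mul h4).mono (le_of_eq (by ring))
  · refine ((((h1.mul h3).mul h5).mul h4).mul h2).mono (le_of_eq (by ring))

theorem mul_adj (x y : Matrix B B ℂ) (hy : y.det ≠ 0) : x * y.adjugate = y.det • (x * y⁻¹) := by
  rw [adj_inv, Matrix.mul_smul, smul_smul, mul_inv_cancel₀ hy, one_smul]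

/-- the unit `x y⁻¹` of the group -/
theorem exists_Hg (hT : IsSubtorsor K T) {x y : Matrix B B ℂ} (hx : x ∈ T) (hy : y ∈ T) :
    ∃ u : Hg T, ((u : (Matrix B B ℂ)ˣ) : Matrix B B ℂ) = x * y⁻¹ ∧
      (((u : (Matrix B B ℂ)ˣ)⁻¹ : (Matrix B B ℂ)ˣ) : Matrix B B ℂ) = y * x⁻¹ := by
  have hxx := mul_inv' hT hx
  have hxx' := inv_mul' hT hx
  have hyy := mul_inv' hT hy
  have hyy' := inv_mul' hT hy
  let u : (Matrix B B ℂ)ˣ := ⟨x * y⁻¹, y * x⁻¹, by
    rw [Matrix.mul_assoc, ← Matrix.mul_assoc y⁻¹, hyy', Matrix.one_mul, hxx], by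
    rw [Matrix.mul_assoc, ← Matrix.mul_assoc x⁻¹, hxx', Matrix.one_mul, hyy]⟩
  refine ⟨⟨u, fun z hz => hT.torsor x hx y hy z hz, fun z hz => hT.torsor y hy x hx z hz⟩, rfl, rfl⟩

/-- the relation holds on the subtorsor -/
theorem rl_T {M : ℕ} (hM : ∀ (K : Subfield ℂ) (T : Set (Matrix B B ℂ)) (hT : IsSubtorsor K T),
      (∀ x ∈ K, IsAlgebraic ℚ x) → ∀ (c : Matrix B B ℂ) (hc : c ∈ T)
      (u w : Hg T), Commute (rho hT hc u ^ M) (rho hT hc w ^ M))
    (hT : IsSubtorsor K T) (hK : ∀ x ∈ K, IsAlgebraic ℚ x) {v : Matrix B B ℂ} (hv : fl v ∈ NL T)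
    {l : B × B → ℂ} (hl : l ∈ Ann T) {x y z w : Matrix B B ℂ} (hx : x ∈ T) (hy : y ∈ T) (hz : z ∈ T)
    (hw : w ∈ T) : rl M v l x y z w = 0 := by
  have hdet : ∀ x ∈ T, x.det ≠ 0 := fun x hx =>
    ((Matrix.isUnit_iff_isUnit_det x).1 (hT.isUnit x hx)).ne_zero
  obtain ⟨u, hu, hu'⟩ := exists_Hg hT hx hy
  obtain ⟨r, hr, hr'⟩ := exists_Hg hT hz hw
  have h1 := hM K T hT hK x hx u r
  have h2 : rho hT hx (u ^ M * r ^ M) (Submodule.Quotient.mk ⟨fl v, hv⟩) =
      rho hT hx (r ^ M * u ^ M) (Submodule.Quotient.mk ⟨fl v, hv⟩) := by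
    rw [map_mul, map_mul, map_pow, map_pow, h1.eq]
  rw [rho_mk, rho_mk, Submodule.Quotient.eq] at h2
  have h3 : cj ((u ^ M * r ^ M : Hg T) : (Matrix B B ℂ)ˣ) (fl v) -
      cj ((r ^ M * u ^ M : Hg T) : (Matrix B B ℂ)ˣ) (fl v) ∈ LL T := h2
  rw [cj_apply, cj_apply] at h3
  have h4 : ∀ p q : Hg T, (((p ^ M * q ^ M : Hg T) : (Matrix B B ℂ)ˣ) : Matrix B B ℂ) =
      ((p : (Matrix B B ℂ)ˣ) : Matrix B B ℂ) ^ M * ((q : (Matrix B B ℂ)ˣ) : Matrix B B ℂ) ^ M := by
    intro p q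
    push_cast
    rfl
  have h5 : ∀ p q : Hg T, ((((p ^ M * q ^ M : Hg T) : (Matrix B B ℂ)ˣ)⁻¹ : (Matrix B B ℂ)ˣ) : Matrix B B ℂ) =
      (((q : (Matrix B B ℂ)ˣ)⁻¹ : (Matrix B B ℂ)ˣ) : Matrix B B ℂ) ^ M *
      (((p : (Matrix B B ℂ)ˣ)⁻¹ : (Matrix B B ℂ)ˣ) : Matrix B B ℂ) ^ M := by
    intro p q
    rw [← Units.val_pow_eq_pow_val, ← Units.val_pow_eq_pow_val, ← Units.val_mul]
    congr 1
  rw [h4, h4, h5, h5, hu, hu', hr, hr'] at h3
  have h6 := hl _ h3
  unfold rl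
  rw [mul_adj _ _ (hdet y hy), mul_adj _ _ (hdet w hw), mul_adj _ _ (hdet z hz), mul_adj _ _ (hdet x hx)]
  simp only [smul_pow, Matrix.smul_mul, Matrix.mul_smul, smul_smul]
  have h7 : ∀ a b c d : ℂ, a ^ M * b ^ M * (c ^ M * d ^ M) = (a * b * c * d) ^ M := by
    intro a b c d
    rw [mul_pow, mul_pow, mul_pow]
    ring
  have h8 : ∀ (a b : ℂ) (p q : Matrix B B ℂ), a = b → lf l (p - q) = 0 → lf l (a • p - b • q) = 0 := by
    rintro a b p q rfl h
    rw [← smul_sub, lf_smul, h, mul_zero]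
  refine h8 _ _ _ _ (by ring) ?_
  rw [← h6]
  unfold GP.lf
  refine Finset.sum_congr rfl fun b _ => ?_
  congr 1
  show _ = fl _ b - fl _ b
  show _ = _
  have h9 : ∀ p q : Matrix B B ℂ, fl (p - q) b = fl p b - fl q b := fun p q => rfl
  rw [h9]
  simp only [Matrix.mul_assoc]

/-- the span of the double commutators: the third term of the lower central series -/
def third (g : Submodule ℂ (Matrix B B ℂ)) : Submodule ℂ (Matrix B B ℂ) :=
  Submodule.span ℂ {Z | ∃ X ∈ g, ∃ Y ∈ g, ∃ W ∈ g, Z = (X * Y - Y * X) * W - W * (X * Y - Y * X)}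

/-- the orbit of the exponentials -/
def Orb (g : Submodule ℂ (Matrix B B ℂ)) (c : Matrix B B ℂ) : Set (Matrix B B ℂ) :=
  {y | ∃ X ∈ g, y = NormedSpace.exp X * c}

theorem fl_neg (x : Matrix B B ℂ) : fl (-x) = - fl x := rfl

/-- **the criterion**, for the Lie algebras -/
theorem crit_lie (B : Type) [Fintype B] [DecidableEq B] : ∃ d : ℕ, ∀ (K : Subfield ℂ),
    (∀ x ∈ K, IsAlgebraic ℚ x) → ∀ (T : Set (Matrix B B ℂ)), IsSubtorsor K T → ∀ c ∈ T,
    ∀ g : Submodule ℂ (Matrix B B ℂ), RelT K T d (Orb g c) → ∀ X ∈ third g, fl X ∈ LL T := by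
  obtain ⟨M, hM0, hM⟩ := exists_M B
  refine ⟨M * (1 + adeg B), ?_⟩
  intro K hK T hT c hc g hr
  have hdet : ∀ x ∈ T, x.det ≠ 0 := fun x hx =>
    ((Matrix.isUnit_iff_isUnit_det x).1 (hT.isUnit x hx)).ne_zero
  have hdc := hdet c hc
  have hdeg : 1 + adeg B ≤ M * (1 + adeg B) := Nat.le_mul_of_pos_left _ hM0
  have hE : ∀ X : Matrix B B ℂ, (NormedSpace.exp X).det ≠ 0 := fun X =>
    ((Matrix.isUnit_iff_isUnit_det _).1 (Matrix.isUnit_exp X)).ne_zero
  have hEinv : ∀ X : Matrix B B ℂ, (NormedSpace.exp X)⁻¹ = NormedSpace.exp (-X) := fun X =>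
    (Matrix.exp_neg X).symm
  have hcc := mul_inv' hT hc
  have hadj : ∀ X : Matrix B B ℂ, (NormedSpace.exp X * c).adjugate =
      (c.det * (NormedSpace.exp X).det) • (c⁻¹ * NormedSpace.exp (-X)) := by
    intro X
    have h1 : (NormedSpace.exp X * c).det ≠ 0 := by
      rw [Matrix.det_mul]
      exact mul_ne_zero (hE X) hdc
    have h2 := mul_adj (B := B) 1 _ h1
    rw [Matrix.one_mul, Matrix.one_mul, Matrix.det_mul, Matrix.mul_inv_rev, hEinv] at h2
    rw [h2, mul_comm (c.det)]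
  -- the group normalises the Lie algebra
  have hnorm : ∀ X ∈ g, ∀ u : Matrix B B ℂ, fl u ∈ LL T → ∀ l ∈ Ann T,
      lf l (NormedSpace.exp X * u * NormedSpace.exp (-X)) = 0 := by
    intro X hX u hu l hl
    have h1 : PFn (M * (1 + adeg B)) (fun x : Matrix B B ℂ => lf l (x * (c⁻¹ * u * c) * x.adjugate)) := by
      refine PFn.mono hdeg (PMn.lf ?_ l)
      exact ((PMn.id.mul (PMn.const _)).mul PMn.adj).mono (le_of_eq (by ring))
    have h2 := transfer hT hr h1 (by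
      intro x hx
      have h3 := conj_mem' hT hx (conj_mem hT hc hu)
      have h4 := hl _ h3
      rw [mul_adj _ _ (hdet x hx), lf_smul]
      unfold GP.lf
      rw [h4, mul_zero]) (NormedSpace.exp X * c) ⟨X, hX, rfl⟩
    rw [hadj, Matrix.mul_smul, lf_smul] at h2
    have h3 := (mul_eq_zero.1 h2).resolve_left (mul_ne_zero hdc (hE X))
    have h4 : NormedSpace.exp X * c * (c⁻¹ * u * c) * (c⁻¹ * NormedSpace.exp (-X)) =
        NormedSpace.exp X * u * NormedSpace.exp (-X) := by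
      calc NormedSpace.exp X * c * (c⁻¹ * u * c) * (c⁻¹ * NormedSpace.exp (-X)) =
          NormedSpace.exp X * (c * c⁻¹) * u * (c * c⁻¹) * NormedSpace.exp (-X) := by simp only [Matrix.mul_assoc]
        _ = _ := by rw [hcc, Matrix.mul_one, Matrix.mul_one]
    rwa [h4] at h3
  have hgN : ∀ X ∈ g, fl X ∈ NL T := by
    intro X hX w hw
    refine mem_LL_of_ann hT fun l hl _ => ?_
    rw [um_fl]
    refine ann_comm (l := l) fun s => ?_
    exact hnorm (s • X) (g.smul_mem s hX) (um w) (by rw [fl_um]; exact hw) l hl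
  -- the commutators act trivially
  have hcomm : ∀ X ∈ g, ∀ Y ∈ g, ∀ v : Matrix B B ℂ, fl v ∈ NL T →
      fl ((X * Y - Y * X) * v - v * (X * Y - Y * X)) ∈ LL T := by
    intro X hX Y hY v hv
    refine mem_LL_of_ann hT fun l hl _ => ?_
    refine ann_comm2 (l := l) fun s t => ?_
    have step1 : ∀ z ∈ T, ∀ x ∈ Orb g c, rl M v l x c z c = 0 := fun z hz =>
      transfer hT hr (rl_x M v l c z c) fun x hx => rl_T hM hT hK hv hl hx hc hz hc
    have step2 : ∀ x ∈ Orb g c, ∀ z ∈ Orb g c, rl M v l x c z c = 0 := fun x hx =>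
      transfer hT hr (rl_z M v l x c c) fun z hz => step1 z hz x hx
    have hM' : (M : ℂ) ≠ 0 := Nat.cast_ne_zero.2 hM0.ne'
    have h1 := step2 _ ⟨(s / M : ℂ) • X, g.smul_mem _ hX, rfl⟩ _ ⟨(t / M : ℂ) • Y, g.smul_mem _ hY, rfl⟩
    have h2 : ∀ (s : ℂ) (X : Matrix B B ℂ), (NormedSpace.exp ((s / M : ℂ) • X) * c * c.adjugate) ^ M =
        (c.det) ^ M • NormedSpace.exp (s • X) := by
      intro s X
      rw [Matrix.mul_assoc, Matrix.mul_adjugate, Matrix.mul_smul, Matrix.mul_one, smul_pow, ← Matrix.exp_nsmul]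
      congr 2
      rw [← Nat.cast_smul_eq_nsmul ℂ, smul_smul]
      congr 1
      field_simp
    have h3 : ∀ (s : ℂ) (X : Matrix B B ℂ), (c * (NormedSpace.exp ((s / M : ℂ) • X) * c).adjugate) ^ M =
        (c.det * (NormedSpace.exp ((s / M : ℂ) • X)).det) ^ M • NormedSpace.exp (-(s • X)) := by
      intro s X
      rw [hadj, Matrix.mul_smul, ← Matrix.mul_assoc, hcc, Matrix.one_mul, smul_pow, ← Matrix.exp_nsmul]
      congr 2
      rw [← Nat.cast_smul_eq_nsmul ℂ, smul_neg, smul_smul]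
      congr 2
      field_simp
    unfold rl at h1
    rw [h2, h2, h3, h3] at h1
    simp only [Matrix.smul_mul, Matrix.mul_smul, smul_smul] at h1
    have h8 : ∀ (a b : ℂ) (p q : Matrix B B ℂ), a = b → a ≠ 0 → lf l (a • p - b • q) = 0 → lf l (p - q) = 0 := by
      rintro a b p q rfl h0 h
      rw [← smul_sub, lf_smul] at h
      exact (mul_eq_zero.1 h).resolve_left h0
    have h9 := h8 _ _ _ _ (by ring) (by
      have e1 := hE ((s / M : ℂ) • X)
      have e2 := hE ((t / M : ℂ) • Y)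
      positivity) h1
    simp only [Matrix.mul_assoc] at h9 ⊢
    exact h9
  -- the span
  intro X hX
  unfold third at hX
  induction hX using Submodule.span_induction with
  | mem Z hZ =>
    obtain ⟨X, hX, Y, hY, W, hW, rfl⟩ := hZ
    exact hcomm X hX Y hY W (hgN W hW)
  | zero =>
    rw [fl_zero]
    exact (LL T).zero_mem
  | add a b _ _ ha hb =>
    rw [fl_add]
    exact (LL T).add_mem ha hb
  | smul z a _ ha =>
    rw [fl_smul]
    exact (LL T).smul_mem z ha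

/-- **the criterion** -/
theorem crit (B : Type) [Fintype B] [DecidableEq B] : ∃ d : ℕ, ∀ (K : Subfield ℂ),
    (∀ x ∈ K, IsAlgebraic ℚ x) → ∀ (T : Set (Matrix B B ℂ)), IsSubtorsor K T → ∀ c ∈ T,
    ∀ g : Submodule ℂ (Matrix B B ℂ), RelT K T d (Orb g c) →
    ∀ X ∈ third g, ∀ x ∈ T, NormedSpace.exp X * x ∈ T := by
  obtain ⟨d, hd⟩ := crit_lie B
  refine ⟨d, ?_⟩
  intro K hK T hT c hc g hr X hX x hx
  exact exp_LL hT (hd K hK T hT c hc g hr X hX) hx

end Pool.Agent.Q26.GP
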