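import Pool.Agent.Q26.GP.Cr

/-!
# Scalars: if the determinant is transcendental
-/

set_option autoImplicit false
set_option linter.unusedSectionVars false

open Matrix

namespace Pool.Agent.Q26.GP

open Pool.Agent.TH127.PT Pool.Agent.Y123.ST Pool.Agent.TH119.DR

variable {B : Type} [Fintype B] [DecidableEq B] {K : Subfield ℂ} {T : Set (Matrix B B ℂ)}

section trans

open Pool.Agent.H977R3.CM Polynomial

/-- automorphisms which translate a transcendental number -/
theorem move_add {F : Subfield ℂ} {z : ℂ} (hz : Transcendental F z) (k : ℕ) :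
    ∃ σ : ℂ ≃+* ℂ, (∀ x ∈ F, σ x = x) ∧ σ z = z + k := by
  have hinj : Function.Injective (aeval z : F[X] →ₐ[F] ℂ) := transcendental_iff_injective.1 hz
  let j : FractionRing F[X] →+* ℂ := IsFractionRing.lift (g := (aeval z : F[X] →ₐ[F] ℂ).toRingHom)
    hinj
  let e : F[X] ≃+* F[X] := (algEquivAevalXAddC (k : F)).toRingEquiv
  let g : FractionRing F[X] ≃+* FractionRing F[X] := IsFractionRing.ringEquivOfRingEquiv e
  obtain ⟨σ, hσ⟩ := exists_aut j g
  have hj : ∀ p : F[X], j (algebraMap F[X] _ p) = aeval z p := by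
    intro p
    change IsFractionRing.lift _ _ = _
    rw [IsFractionRing.lift_algebraMap]
    rfl
  have hg : ∀ p : F[X], g (algebraMap F[X] _ p) = algebraMap F[X] _ (e p) := by
    intro p
    change IsFractionRing.ringEquivOfRingEquiv e _ = _
    rw [IsFractionRing.ringEquivOfRingEquiv_algebraMap]
  refine ⟨σ, fun x hx => ?_, ?_⟩
  · have h1 := hσ (algebraMap F[X] _ (C (⟨x, hx⟩ : F)))
    rw [hg, hj] at h1
    have h2 : e (C (⟨x, hx⟩ : F)) = C (⟨x, hx⟩ : F) := by
      simp [e]
    rw [h2, hj, aeval_C] at h1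
    exact h1
  · have h1 := hσ (algebraMap F[X] _ X)
    rw [hg, hj] at h1
    have h2 : e X = X + C (k : F) := by
      simp [e]
    rw [h2, hj] at h1
    simp only [aeval_X, map_add, map_natCast] at h1
    exact h1

end trans

theorem transc_K (hK : ∀ x ∈ K, IsAlgebraic ℚ x) {z : ℂ} (hz : Transcendental ℚ z) : Transcendental K z := by
  have _ : Algebra.IsAlgebraic ℚ K := ⟨fun x => by
    have h1 := hK x x.2
    exact (isAlgebraic_algebraMap_iff (A := ℂ) (algebraMap K ℂ).injective).1 h1⟩
  intro h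
  exact hz (h.restrictScalars ℚ)

theorem der_det (X : Matrix B B ℂ) (s : ℂ) :
    HasDerivAt (fun s : ℂ => (NormedSpace.exp (s • X)).det)
      (dd (dt B) (fl (NormedSpace.exp (s • X))) (fl (X * NormedSpace.exp (s • X)))) s := by
  have h1 := der_eval (dt B) (fun s : ℂ => fl (NormedSpace.exp (s • X) * 1))
    (fl (X * (NormedSpace.exp (s • X) * 1))) s fun b => der_path X 1 s b
  simp only [Matrix.mul_one, eval_dt] at h1
  exact h1

theorem dd_det (X : Matrix B B ℂ) : dd (dt B) (fl (1 : Matrix B B ℂ)) (fl X) = X.trace := by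
  have h1 := der_eval (dt B) (fun s : ℂ => fl ((1 : Matrix B B ℂ) + s • X)) (fl X) 0 (by
    intro b
    have h2 : (fun s : ℂ => fl ((1 : Matrix B B ℂ) + s • X) b) = fun s : ℂ => fl (1 : Matrix B B ℂ) b + s * fl X b := rfl
    rw [h2]
    have h3 := ((hasDerivAt_id (0 : ℂ)).mul_const (fl X b)).const_add (fl (1 : Matrix B B ℂ) b)
    simpa using h3)
  simp only [zero_smul, add_zero, eval_dt] at h1
  have h4 := (Matrix.det (1 + (Polynomial.X : Polynomial ℂ) • X.map Polynomial.C)).hasDerivAt 0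
  rw [Matrix.derivative_det_one_add_X_smul] at h4
  have h5 : (fun s : ℂ => (Matrix.det (1 + (Polynomial.X : Polynomial ℂ) • X.map Polynomial.C)).eval s) =
      fun s : ℂ => ((1 : Matrix B B ℂ) + s • X).det := by
    funext s
    rw [← Polynomial.coe_evalRingHom, RingHom.map_det]
    congr 1
    ext i j
    by_cases hij : i = j
    · subst hij
      simp
      ring
    · simp [hij]
      ring
  rw [h5] at h4
  exact h1.unique h4

theorem det_exp_one {X : Matrix B B ℂ} (hX : X.trace = 0) : (NormedSpace.exp X).det = 1 := by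
  have h0 : ∀ s : ℂ, HasDerivAt (fun s : ℂ => (NormedSpace.exp (s • X)).det) 0 s := by
    intro s
    have h1 := der_det X 0
    simp only [zero_smul, NormedSpace.exp_zero, Matrix.mul_one] at h1
    rw [dd_det, hX] at h1
    -- translate
    have h2 : ∀ t : ℂ, (NormedSpace.exp (t • X)).det =
        (NormedSpace.exp (s • X)).det * (NormedSpace.exp ((t - s) • X)).det := by
      intro t
      rw [← Matrix.det_mul, ← Matrix.exp_add_of_commute]
      · congr 2
        rw [← add_smul]
        congr 1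
        ring
      · exact ((Commute.refl X).smul_left s).smul_right (t - s)
    have h3 : (fun t : ℂ => (NormedSpace.exp (t • X)).det) = fun t : ℂ =>
        (NormedSpace.exp (s • X)).det * (NormedSpace.exp ((t - s) • X)).det := funext h2
    rw [h3]
    have h4 : HasDerivAt (fun t : ℂ => t - s) 1 s := (hasDerivAt_id s).sub_const s
    have h5 : HasDerivAt (fun t : ℂ => (NormedSpace.exp (t • X)).det) 0 ((fun t : ℂ => t - s) s) := by
      simp only [sub_self]
      exact h1
    have h6 := (HasDerivAt.comp (h₂ := fun t : ℂ => (NormedSpace.exp (t • X)).det) (h := fun t : ℂ => t - s) s h5 h4).const_mul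
      (NormedSpace.exp (s • X)).det
    simp only [zero_mul, mul_zero] at h6
    exact h6
  have h1 := is_const_of_deriv_eq_zero (f := fun s : ℂ => (NormedSpace.exp (s • X)).det)
    (fun s => (h0 s).differentiableAt) (fun s => (h0 s).deriv) 1 0
  simp only [one_smul, zero_smul, NormedSpace.exp_zero, Matrix.det_one] at h1
  exact h1

theorem trace_third {g : Submodule ℂ (Matrix B B ℂ)} {X : Matrix B B ℂ} (hX : X ∈ third g) :
    X.trace = 0 := by
  unfold third at hX
  induction hX using Submodule.span_induction with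
  | mem Z hZ =>
    obtain ⟨X, _, Y, _, W, _, rfl⟩ := hZ
    rw [Matrix.trace_sub, Matrix.trace_mul_comm, sub_self]
  | zero => exact Matrix.trace_zero _ _
  | add a b _ _ ha hb => rw [Matrix.trace_add, ha, hb, add_zero]
  | smul z a _ ha => rw [Matrix.trace_smul, ha, smul_zero]

/-- the group generated by the exponentials (as a monoid) -/
def Gp (g : Submodule ℂ (Matrix B B ℂ)) : Submonoid (Matrix B B ℂ) :=
  Submonoid.closure {y | ∃ X ∈ g, y = NormedSpace.exp X}

theorem Gp_inv {g : Submodule ℂ (Matrix B B ℂ)} {γ : Matrix B B ℂ} (h : γ ∈ Gp g) : ∃ δ ∈ Gp g, δ * γ = 1 := by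
  unfold Gp at h
  induction h using Submonoid.closure_induction with
  | mem y hy =>
    obtain ⟨X, hX, rfl⟩ := hy
    refine ⟨NormedSpace.exp (-X), Submonoid.subset_closure ⟨-X, g.neg_mem hX, rfl⟩, ?_⟩
    rw [← Matrix.exp_add_of_commute _ _ (Commute.neg_left (Commute.refl X)), neg_add_cancel, NormedSpace.exp_zero]
  | one => exact ⟨1, one_mem _, Matrix.one_mul 1⟩
  | mul x y _ _ hx hy =>
    obtain ⟨δ, h1, h2⟩ := hx
    obtain ⟨δ', h1', h2'⟩ := hy
    refine ⟨δ' * δ, mul_mem h1' h1, ?_⟩
    calc δ' * δ * (x * y) = δ' * (δ * x) * y := by simp only [Matrix.mul_assoc]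
      _ = 1 := by rw [h2, Matrix.mul_one, h2']

theorem Gp_det {g : Submodule ℂ (Matrix B B ℂ)} (hg : ∀ X ∈ g, X.trace = 0) {γ : Matrix B B ℂ} (h : γ ∈ Gp g) : γ.det = 1 := by
  unfold Gp at h
  induction h using Submonoid.closure_induction with
  | mem y hy =>
    obtain ⟨X, hX, rfl⟩ := hy
    exact det_exp_one (hg X hX)
  | one => exact Matrix.det_one
  | mul x y _ _ hx hy => rw [Matrix.det_mul, hx, hy, mul_one]

theorem Gp_stab {g : Submodule ℂ (Matrix B B ℂ)} (hs : ∀ X ∈ g, ∀ x ∈ T, NormedSpace.exp X * x ∈ T)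
    {γ : Matrix B B ℂ} (h : γ ∈ Gp g) : ∀ x ∈ T, γ * x ∈ T := by
  unfold Gp at h
  induction h using Submonoid.closure_induction with
  | mem y hy =>
    obtain ⟨X, hX, rfl⟩ := hy
    exact hs X hX
  | one =>
    intro x hx
    rwa [Matrix.one_mul]
  | mul x y _ _ hx hy =>
    intro z hz
    rw [Matrix.mul_assoc]
    exact hx _ (hy z hz)

/-- infinitely many scalars -/
theorem scal (hT : IsSubtorsor K T) {c : Matrix B B ℂ} (hc : c ∈ T)
    (h : Set.Infinite {z : ℂ | z • c ∈ T}) {x : Matrix B B ℂ} (hx : x ∈ T) {z : ℂ} (hz : z ≠ 0) : z • x ∈ T := by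
  have hcc := mul_inv' hT hc
  have h1 : ∀ z : ℂ, z • c ∈ T → z • x ∈ T := by
    intro z hz
    have h2 := hT.torsor _ hz c hc x hx
    rwa [Matrix.smul_mul, Matrix.smul_mul, hcc, Matrix.one_mul] at h2
  have hxT := hx
  obtain ⟨I, hI, hI2⟩ := hT.algebraic
  rw [hI2]
  refine ⟨?_, fun p hp => ?_⟩
  · have h3 : IsUnit (z • x) := by
      rw [Matrix.isUnit_iff_isUnit_det, Matrix.det_smul, isUnit_iff_ne_zero]
      exact mul_ne_zero (pow_ne_zero _ hz) ((Matrix.isUnit_iff_isUnit_det x).1 (hT.isUnit x hxT)).ne_zero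
    exact h3
  · let q : Polynomial ℂ := MvPolynomial.aeval (fun b => Polynomial.C (fl x b) * Polynomial.X) p
    have hq : ∀ w : ℂ, q.eval w = MvPolynomial.eval (fl (w • x)) p := by
      intro w
      show Polynomial.eval w (MvPolynomial.aeval (fun b => Polynomial.C (fl x b) * Polynomial.X) p) = _
      have h3 : (Polynomial.evalRingHom w).comp
          (MvPolynomial.aeval (R := ℂ) (fun b => Polynomial.C (fl x b) * Polynomial.X) :
            MvPolynomial (B × B) ℂ →ₐ[ℂ] Polynomial ℂ).toRingHom = MvPolynomial.eval (fl (w • x)) := by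
        refine MvPolynomial.ringHom_ext (fun a => ?_) fun b => ?_
        · simp
        · simp only [RingHom.coe_comp, Function.comp_apply, AlgHom.toRingHom_eq_coe, RingHom.coe_coe, MvPolynomial.aeval_X,
            Polynomial.coe_evalRingHom, Polynomial.eval_mul, Polynomial.eval_C, Polynomial.eval_X, MvPolynomial.eval_X]
          rw [fl_smul, Pi.smul_apply, smul_eq_mul]
          ring
      exact congrFun (congrArg DFunLike.coe h3) p
    have hq0 : q = 0 := by
      refine Polynomial.eq_zero_of_infinite_isRoot q (h.mono fun w hw => ?_)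
      show q.IsRoot w
      rw [Polynomial.IsRoot.def, hq]
      exact ((hI2 _).1 (h1 w hw)).2 p hp
    have h4 := hq z
    rw [hq0, Polynomial.eval_zero] at h4
    exact h4.symm

/-- **equality of the smallest subtorsor with a given one** -/
theorem equal (hK : ∀ x ∈ K, IsAlgebraic ℚ x) {g : Submodule ℂ (Matrix B B ℂ)} (hg : ∀ X ∈ g, X.trace = 0) {c : Matrix B B ℂ}
    (hdet : Transcendental ℚ c.det) {T₀ : Set (Matrix B B ℂ)} (hT₀ : IsSubtorsor K T₀) (hc₀ : c ∈ T₀)
    (h₀ : ∀ x ∈ T₀, ∃ z : ℂ, z ≠ 0 ∧ ∃ γ ∈ Gp g, x = z • (γ * c))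
    (hT : IsSubtorsor K T) (hc : c ∈ T) (hs : ∀ X ∈ g, ∀ x ∈ T, NormedSpace.exp X * x ∈ T) : T₀ ⊆ T := by
  have hdK := transc_K hK hdet
  have hd0 : c.det ≠ 0 := ((Matrix.isUnit_iff_isUnit_det c).1 (hT.isUnit c hc)).ne_zero
  have hinf : Set.Infinite {z : ℂ | z • c ∈ T} := by
    have h1 : ∀ k : ℕ, ∃ z : ℂ, z • c ∈ T ∧ z ^ Fintype.card B = 1 + k / c.det := by
      intro k
      obtain ⟨σ, hσ, hσ2⟩ := move_add hdK k
      have h2 := aut_mem hT₀ hσ hc₀
      have h3 := aut_mem hT hσ hc
      obtain ⟨z, hz, γ, hγ, h4⟩ := h₀ _ h2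
      obtain ⟨δ, hδ, h5⟩ := Gp_inv hγ
      refine ⟨z, ?_, ?_⟩
      · have h6 := Gp_stab hs hδ _ h3
        rw [h4, Matrix.mul_smul, ← Matrix.mul_assoc, h5, Matrix.one_mul] at h6
        exact h6
      · have h7 : (c.map σ).det = σ c.det := by
          have := (σ : ℂ →+* ℂ).map_det c
          exact this.symm
        rw [h4, Matrix.det_smul, Matrix.det_mul, Gp_det hg hγ, one_mul, hσ2] at h7
        field_simp
        rw [h7]
    choose f hf hf2 using h1
    refine Set.infinite_of_injective_forall_mem (f := f) ?_ hf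
    intro k l hkl
    have h8 := hf2 k
    rw [hkl, hf2 l] at h8
    have h9 : (l : ℂ) / c.det = k / c.det := add_left_cancel h8
    rw [div_left_inj' hd0] at h9
    exact_mod_cast h9.symm
  intro y hy
  obtain ⟨z, hz, γ, hγ, rfl⟩ := h₀ y hy
  exact scal hT hc hinf (Gp_stab hs hγ c hc) hz

end Pool.Agent.Q26.GP
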