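import Pool.Agent.Y113.GG.Conv
import Pool.Agent.Q26.GP.Sc

/-!
# Formal relations and relations between values of convergent power series
-/

set_option autoImplicit false
set_option linter.unusedSectionVars false

open PowerSeries

namespace Pool.Agent.Q26.GP

/-- `φ` converges absolutely at `z`, with the value `v` -/
def Ev (z : ℂ) (φ : ℂ⟦X⟧) (v : ℂ) : Prop :=
  Summable (fun m : ℕ => ‖coeff m φ * z ^ m‖) ∧ HasSum (fun m : ℕ => coeff m φ * z ^ m) v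

theorem Ev.C (z a : ℂ) : Ev z (PowerSeries.C a) a := by
  have h : (fun m : ℕ => coeff m (PowerSeries.C a) * z ^ m) = fun m : ℕ => if m = 0 then a else 0 := by
    funext m
    rw [coeff_C]
    by_cases hm : m = 0
    · subst hm
      simp
    · simp [hm]
  refine ⟨?_, ?_⟩
  · have h2 : (fun m : ℕ => ‖coeff m (PowerSeries.C a) * z ^ m‖) = fun m : ℕ => if m = 0 then ‖a‖ else 0 := by
      funext m
      rw [congrFun h m]
      split_ifs <;> simp
    rw [h2]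
    exact (hasSum_ite_eq 0 ‖a‖).summable
  · rw [h]
    exact hasSum_ite_eq 0 a

theorem Ev.X (z : ℂ) : Ev z (PowerSeries.X : ℂ⟦X⟧) z := by
  have h : (fun m : ℕ => coeff m (PowerSeries.X : ℂ⟦X⟧) * z ^ m) = fun m : ℕ => if m = 1 then z else 0 := by
    funext m
    rw [coeff_X]
    by_cases hm : m = 1
    · subst hm
      simp
    · simp [hm]
  refine ⟨?_, ?_⟩
  · have h2 : (fun m : ℕ => ‖coeff m (PowerSeries.X : ℂ⟦X⟧) * z ^ m‖) = fun m : ℕ => if m = 1 then ‖z‖ else 0 := by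
      funext m
      rw [congrFun h m]
      split_ifs <;> simp
    rw [h2]
    exact (hasSum_ite_eq 1 ‖z‖).summable
  · rw [h]
    exact hasSum_ite_eq 1 z

theorem Ev.add {z : ℂ} {φ ψ : ℂ⟦X⟧} {v w : ℂ} (h : Ev z φ v) (h' : Ev z ψ w) : Ev z (φ + ψ) (v + w) := by
  refine ⟨?_, ?_⟩
  · refine Summable.of_nonneg_of_le (fun _ => norm_nonneg _) (fun m => ?_) (h.1.add h'.1)
    rw [map_add, add_mul]
    exact norm_add_le _ _
  · have := h.2.add h'.2
    simp only [map_add, add_mul]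
    exact this

theorem Ev.mul {z : ℂ} {φ ψ : ℂ⟦X⟧} {v w : ℂ} (h : Ev z φ v) (h' : Ev z ψ w) : Ev z (φ * ψ) (v * w) := by
  have h1 := summable_norm_sum_mul_antidiagonal_of_summable_norm h.1 h'.1
  have h2 : ∀ m : ℕ, ∑ kl ∈ Finset.HasAntidiagonal.antidiagonal m, (coeff kl.1 φ * z ^ kl.1) * (coeff kl.2 ψ * z ^ kl.2) =
      coeff m (φ * ψ) * z ^ m := by
    intro m
    rw [coeff_mul, Finset.sum_mul]
    refine Finset.sum_congr rfl fun kl hkl => ?_
    rw [Finset.HasAntidiagonal.mem_antidiagonal] at hkl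
    rw [← hkl, pow_add]
    ring
  simp only [h2] at h1
  refine ⟨h1, ?_⟩
  have h3 := tsum_mul_tsum_eq_tsum_sum_antidiagonal_of_summable_norm h.1 h'.1
  simp only [h2] at h3
  rw [h.2.tsum_eq, h'.2.tsum_eq] at h3
  rw [h3]
  exact h1.of_norm.hasSum

theorem Ev.aeval {σ : Type*} {z : ℂ} {φ : σ → ℂ⟦X⟧} {v : σ → ℂ} (h : ∀ s, Ev z (φ s) (v s))
    (F : MvPolynomial σ ℂ) : Ev z (MvPolynomial.aeval φ F) (MvPolynomial.aeval v F) := by
  induction F using MvPolynomial.induction_on with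
  | C a =>
    rw [MvPolynomial.algHom_C, MvPolynomial.algHom_C]
    exact Ev.C z a
  | add p q hp hq =>
    rw [map_add, map_add]
    exact hp.add hq
  | mul_X p s hp =>
    rw [map_mul, map_mul, MvPolynomial.aeval_X, MvPolynomial.aeval_X]
    exact hp.mul (h s)

theorem Ev.unique {z : ℂ} {φ : ℂ⟦X⟧} {v w : ℂ} (h : Ev z φ v) (h' : Ev z φ w) : v = w := h.2.unique h'.2

theorem Ev.zero (z : ℂ) : Ev z 0 0 := by
  have := Ev.C z 0
  rwa [map_zero] at this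

/-- a power series with the value `0` at all points near `0` is zero -/
theorem eq_zero_of_ev {φ : ℂ⟦X⟧} {x₀ : ℝ} (h : ∀ x : ℝ, x₀ < x → Ev ((1 / x : ℝ) : ℂ) φ 0) : φ = 0 := by
  by_contra hne
  -- the first coefficient
  obtain ⟨k, hk, hk2⟩ : ∃ k : ℕ, coeff k φ ≠ 0 ∧ ∀ j < k, coeff j φ = 0 := by
    classical
    have hex : ∃ k : ℕ, coeff k φ ≠ 0 := by
      by_contra hcon
      push Not at hcon
      exact hne (PowerSeries.ext fun n => by rw [hcon n, map_zero])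
    exact ⟨Nat.find hex, Nat.find_spec hex, fun j hj => not_not.1 (Nat.find_min hex hj)⟩
  obtain ⟨x1, hx1, hx10⟩ : ∃ x1 : ℝ, x₀ < x1 ∧ 0 < x1 := ⟨max x₀ 0 + 1, by linarith [le_max_left x₀ 0], by
    linarith [le_max_right x₀ 0]⟩
  -- the bound
  obtain ⟨hs, -⟩ := h x1 hx1
  have hs' : Summable fun m : ℕ => ‖coeff (m + (k + 1)) φ * ((1 / x1 : ℝ) : ℂ) ^ (m + (k + 1))‖ :=
    (summable_nat_add_iff (f := fun m : ℕ => ‖coeff m φ * ((1 / x1 : ℝ) : ℂ) ^ m‖) (k + 1)).2 hs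
  obtain ⟨S, hS⟩ : ∃ S, S = ∑' m : ℕ, ‖coeff m φ * ((1 / x1 : ℝ) : ℂ) ^ m‖ := ⟨_, rfl⟩
  have hnorm : ∀ (x : ℝ) (m : ℕ), 0 < x → ‖coeff m φ * ((1 / x : ℝ) : ℂ) ^ m‖ = ‖coeff m φ‖ * (1 / x) ^ m := by
    intro x m hx
    rw [norm_mul, norm_pow, Complex.norm_real, Real.norm_of_nonneg (by positivity)]
  -- for every `x > x1`: the `k`-th term is the negative of the sum of the later terms
  have key : ∀ x : ℝ, x1 < x → ‖coeff k φ‖ ≤ (x1 / x) * (S * x1 ^ k) := by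
    intro x hx
    have hx0 : 0 < x := hx10.trans hx
    obtain ⟨hs2, hsum⟩ := h x (hx1.trans hx)
    have hs2' : Summable fun m : ℕ => ‖coeff (m + (k + 1)) φ * ((1 / x : ℝ) : ℂ) ^ (m + (k + 1))‖ :=
      (summable_nat_add_iff (f := fun m : ℕ => ‖coeff m φ * ((1 / x : ℝ) : ℂ) ^ m‖) (k + 1)).2 hs2
    have h1 : ∑' m : ℕ, coeff m φ * ((1 / x : ℝ) : ℂ) ^ m = 0 := hsum.tsum_eq
    rw [← hs2.of_norm.sum_add_tsum_nat_add (k + 1), Finset.sum_range_succ,
      Finset.sum_eq_zero (fun j hj => by rw [hk2 j (Finset.mem_range.1 hj), zero_mul]), zero_add] at h1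
    have h2 : ‖coeff k φ * ((1 / x : ℝ) : ℂ) ^ k‖ ≤ ∑' m : ℕ, ‖coeff (m + (k + 1)) φ * ((1 / x : ℝ) : ℂ) ^ (m + (k + 1))‖ := by
      rw [eq_neg_of_add_eq_zero_left h1, norm_neg]
      exact norm_tsum_le_tsum_norm hs2'
    have h3 : ∑' m : ℕ, ‖coeff (m + (k + 1)) φ * ((1 / x : ℝ) : ℂ) ^ (m + (k + 1))‖ ≤
        ∑' m : ℕ, (x1 / x) ^ (k + 1) * ‖coeff (m + (k + 1)) φ * ((1 / x1 : ℝ) : ℂ) ^ (m + (k + 1))‖ := by
      refine Summable.tsum_le_tsum (fun m => ?_) hs2' (hs'.mul_left _)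
      rw [hnorm x _ hx0, hnorm x1 _ hx10]
      have h4 : (1 / x) ^ (m + (k + 1)) = (x1 / x) ^ m * ((x1 / x) ^ (k + 1) * (1 / x1) ^ (m + (k + 1))) := by
        rw [← mul_assoc, ← pow_add, ← mul_pow]
        congr 1
        field_simp
      rw [h4]
      have h5 : (x1 / x) ^ m ≤ 1 := pow_le_one₀ (by positivity) ((div_le_one hx0).2 hx.le)
      have h6 : 0 ≤ ‖coeff (m + (k + 1)) φ‖ * ((x1 / x) ^ (k + 1) * (1 / x1) ^ (m + (k + 1))) := by positivity
      calc ‖coeff (m + (k + 1)) φ‖ * ((x1 / x) ^ m * ((x1 / x) ^ (k + 1) * (1 / x1) ^ (m + (k + 1)))) =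
            (x1 / x) ^ m * (‖coeff (m + (k + 1)) φ‖ * ((x1 / x) ^ (k + 1) * (1 / x1) ^ (m + (k + 1)))) := by ring
        _ ≤ 1 * (‖coeff (m + (k + 1)) φ‖ * ((x1 / x) ^ (k + 1) * (1 / x1) ^ (m + (k + 1)))) :=
            mul_le_mul_of_nonneg_right h5 h6
        _ = _ := by ring
    have h4 : ∑' m : ℕ, ‖coeff (m + (k + 1)) φ * ((1 / x1 : ℝ) : ℂ) ^ (m + (k + 1))‖ ≤ S := by
      rw [hS, ← hs.sum_add_tsum_nat_add (k + 1)]
      have : 0 ≤ ∑ i ∈ Finset.range (k + 1), ‖coeff i φ * ((1 / x1 : ℝ) : ℂ) ^ i‖ :=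
        Finset.sum_nonneg fun _ _ => norm_nonneg _
      linarith
    rw [tsum_mul_left] at h3
    have h5 := h2.trans (h3.trans (mul_le_mul_of_nonneg_left h4 (by positivity)))
    rw [hnorm x _ hx0] at h5
    have h6 : ‖coeff k φ‖ = ‖coeff k φ‖ * (1 / x) ^ k * x ^ k := by
      rw [mul_assoc, ← mul_pow]
      field_simp
      simp
    rw [h6]
    calc ‖coeff k φ‖ * (1 / x) ^ k * x ^ k ≤ (x1 / x) ^ (k + 1) * S * x ^ k :=
          mul_le_mul_of_nonneg_right h5 (by positivity)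
      _ = (x1 / x) * (S * x1 ^ k) := by
        rw [pow_succ, div_pow]
        field_simp
  have hpos : 0 < ‖coeff k φ‖ := norm_pos_iff.2 hk
  -- choose `x` large
  obtain ⟨x, hx, hx2⟩ : ∃ x : ℝ, x1 < x ∧ (x1 / x) * (S * x1 ^ k) < ‖coeff k φ‖ := by
    have hlim : Filter.Tendsto (fun x : ℝ => (x1 / x) * (S * x1 ^ k)) Filter.atTop (nhds (0 * (S * x1 ^ k))) :=
      (Filter.Tendsto.const_div_atTop Filter.tendsto_id x1).mul_const _
    rw [zero_mul] at hlim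
    obtain ⟨x, hx⟩ := ((Filter.eventually_gt_atTop x1).and (hlim.eventually_lt_const hpos)).exists
    exact ⟨x, hx⟩
  exact absurd (key x hx) (not_le.2 hx2)

/-- power series with rational coefficients of geometric growth -/
theorem Ev.of_growth {f : ℚ⟦X⟧} {C : ℝ} (hC : 1 ≤ C) (hf : ∀ m, |((coeff m f : ℚ) : ℝ)| ≤ C ^ (m + 1)) {x : ℝ} (hx : C < x) :
    Ev ((1 / x : ℝ) : ℂ) (PowerSeries.map (algebraMap ℚ ℂ) f)
      ((∑' m : ℕ, ((coeff m f : ℚ) : ℝ) * (1 / x) ^ m : ℝ) : ℂ) := by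
  have hx0 : 0 < x := by linarith
  have h1 : ∀ m : ℕ, coeff m (PowerSeries.map (algebraMap ℚ ℂ) f) * ((1 / x : ℝ) : ℂ) ^ m =
      ((((coeff m f : ℚ) : ℝ) * (1 / x) ^ m : ℝ) : ℂ) := by
    intro m
    rw [coeff_map]
    push_cast
    rfl
  have h2 : Summable (fun m : ℕ => |((coeff m f : ℚ) : ℝ) * (1 / x) ^ m|) := by
    refine Summable.of_nonneg_of_le (fun _ => abs_nonneg _) (fun m => ?_)
      ((summable_geometric_of_lt_one (by positivity) ((div_lt_one hx0).2 hx)).mul_left C)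
    rw [abs_mul, abs_of_nonneg (by positivity : (0 : ℝ) ≤ (1 / x) ^ m)]
    calc |((coeff m f : ℚ) : ℝ)| * (1 / x) ^ m ≤ C ^ (m + 1) * (1 / x) ^ m :=
          mul_le_mul_of_nonneg_right (hf m) (by positivity)
      _ = C * (C / x) ^ m := by
        rw [pow_succ, div_pow, div_pow, one_pow]
        field_simp
  refine ⟨?_, ?_⟩
  · simp only [h1, Complex.norm_real, Real.norm_eq_abs]
    exact h2
  · simp only [h1]
    exact Complex.hasSum_ofReal.2 h2.of_abs.hasSum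

end Pool.Agent.Q26.GP
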