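import Pool.Agent.Q26.GP.Grp

/-!
# Exponentials: derivatives, and the exponential of an element of the Lie algebra
-/

set_option autoImplicit false
set_option linter.unusedSectionVars false

open Matrix

namespace Pool.Agent.Q26.GP

open Pool.Agent.TH127.PT Pool.Agent.Y123.ST Pool.Agent.TH119.DR

variable {B : Type} [Fintype B] [DecidableEq B] {K : Subfield ℂ} {T : Set (Matrix B B ℂ)}

section norm

attribute [local instance] Matrix.linftyOpNormedRing Matrix.linftyOpNormedAlgebra

theorem der_exp (X : Matrix B B ℂ) (s : ℂ) :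
    HasDerivAt (fun s : ℂ => NormedSpace.exp (s • X)) (X * NormedSpace.exp (s • X)) s := by
  have h1 := hasDerivAt_exp_smul_const (𝕂 := ℂ) X s
  have h2 : X * NormedSpace.exp (s • X) = NormedSpace.exp (s • X) * X := by
    have : Commute X (NormedSpace.exp (s • X)) := (Commute.refl X).smul_right s |>.exp_right
    exact this
  rw [h2]
  exact h1

/-- the linear functional as a continuous linear map -/
noncomputable def lfc (l : B × B → ℂ) : Matrix B B ℂ →L[ℂ] ℂ :=
  LinearMap.toContinuousLinearMap
    { toFun := lf l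
      map_add' := lf_add l
      map_smul' := fun a x => by rw [lf_smul]; rfl }

theorem lfc_apply (l : B × B → ℂ) (x : Matrix B B ℂ) : lfc l x = lf l x := rfl

theorem der_lf {f : ℂ → Matrix B B ℂ} {f' : Matrix B B ℂ} {s : ℂ} (h : HasDerivAt f f' s) (l : B × B → ℂ) :
    HasDerivAt (fun s => lf l (f s)) (lf l f') s :=
  (lfc l).hasFDerivAt.comp_hasDerivAt s h

theorem der_conj (X u : Matrix B B ℂ) :
    HasDerivAt (fun s : ℂ => NormedSpace.exp (s • X) * u * NormedSpace.exp (-(s • X))) (X * u - u * X) 0 := by
  have h1 := der_exp X 0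
  have h2 := der_exp (-X) 0
  have h3 := (h1.mul_const u).mul h2
  simp only [zero_smul, neg_zero, NormedSpace.exp_zero, Matrix.mul_one, Matrix.one_mul, smul_neg] at h3
  have h4 : X * u - u * X = X * u + u * -X := by rw [Matrix.mul_neg, sub_eq_add_neg]
  rw [h4]
  exact h3

/-- if the conjugates are annihilated, so is the commutator -/
theorem ann_comm {l : B × B → ℂ} {X u : Matrix B B ℂ}
    (h : ∀ s : ℂ, lf l (NormedSpace.exp (s • X) * u * NormedSpace.exp (-(s • X))) = 0) :
    lf l (X * u - u * X) = 0 := by
  have h1 := der_lf (der_conj X u) l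
  have h2 : (fun s : ℂ => lf l (NormedSpace.exp (s • X) * u * NormedSpace.exp (-(s • X)))) = fun _ => 0 := funext h
  rw [h2] at h1
  exact (h1.unique (hasDerivAt_const 0 (0 : ℂ)))

/-- the double commutator -/
theorem ann_comm2 {l : B × B → ℂ} {X Y v : Matrix B B ℂ}
    (h : ∀ s t : ℂ, lf l (NormedSpace.exp (s • X) * (NormedSpace.exp (t • Y) * v * NormedSpace.exp (-(t • Y))) *
      NormedSpace.exp (-(s • X)) - NormedSpace.exp (t • Y) * (NormedSpace.exp (s • X) * v *
      NormedSpace.exp (-(s • X))) * NormedSpace.exp (-(t • Y))) = 0) :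
    lf l ((X * Y - Y * X) * v - v * (X * Y - Y * X)) = 0 := by
  -- derivative in `s`
  have h1 : ∀ t : ℂ, lf l ((X * (NormedSpace.exp (t • Y) * v * NormedSpace.exp (-(t • Y))) -
      (NormedSpace.exp (t • Y) * v * NormedSpace.exp (-(t • Y))) * X) -
      NormedSpace.exp (t • Y) * (X * v - v * X) * NormedSpace.exp (-(t • Y))) = 0 := by
    intro t
    have h2 := (der_conj X (NormedSpace.exp (t • Y) * v * NormedSpace.exp (-(t • Y)))).sub
      (((der_conj X v).const_mul (NormedSpace.exp (t • Y))).mul_const (NormedSpace.exp (-(t • Y))))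
    have h3 := der_lf h2 l
    have h4 : (fun s : ℂ => lf l (((fun s : ℂ => NormedSpace.exp (s • X) * (NormedSpace.exp (t • Y) * v *
        NormedSpace.exp (-(t • Y))) * NormedSpace.exp (-(s • X))) - fun s : ℂ => NormedSpace.exp (t • Y) *
        (NormedSpace.exp (s • X) * v * NormedSpace.exp (-(s • X))) * NormedSpace.exp (-(t • Y))) s)) =
        fun _ => 0 := by
      funext s
      exact h s t
    rw [h4] at h3
    exact h3.unique (hasDerivAt_const 0 (0 : ℂ))
  -- derivative in `t`
  have h2 := (((der_conj Y v).const_mul X).sub ((der_conj Y v).mul_const X)).sub (der_conj Y (X * v - v * X))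
  have h3 := der_lf h2 l
  have h4 : (fun s : ℂ => lf l ((((fun s : ℂ => X * (NormedSpace.exp (s • Y) * v * NormedSpace.exp (-(s • Y)))) -
      fun s : ℂ => (NormedSpace.exp (s • Y) * v * NormedSpace.exp (-(s • Y))) * X) -
      fun s : ℂ => NormedSpace.exp (s • Y) * (X * v - v * X) * NormedSpace.exp (-(s • Y))) s)) = fun _ => 0 := by
    funext s
    exact h1 s
  rw [h4] at h3
  have h5 := h3.unique (hasDerivAt_const 0 (0 : ℂ))
  have h6 : (X * Y - Y * X) * v - v * (X * Y - Y * X) =
      X * (Y * v - v * Y) - (Y * v - v * Y) * X - (Y * (X * v - v * X) - (X * v - v * X) * Y) := by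
    noncomm_ring
  rw [h6]
  exact h5

/-- derivative of a polynomial along a curve -/
theorem der_eval {β : Type} [Fintype β] (P : MvPolynomial β ℂ) (y : ℂ → β → ℂ) (y' : β → ℂ) (s : ℂ)
    (h : ∀ b, HasDerivAt (fun s => y s b) (y' b) s) :
    HasDerivAt (fun s => MvPolynomial.eval (y s) P) (dd P (y s) y') s := by
  induction P using MvPolynomial.induction_on with
  | C a =>
    simp only [MvPolynomial.eval_C, dd_C]
    exact hasDerivAt_const s a
  | add p q hp hq =>
    simp only [map_add, dd_add]
    exact hp.add hq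
  | mul_X p b hp =>
    simp only [map_mul, MvPolynomial.eval_X, dd_mul, dd_X]
    exact hp.mul (h b)

theorem der_path (X x : Matrix B B ℂ) (s : ℂ) (b : B × B) :
    HasDerivAt (fun s : ℂ => fl (NormedSpace.exp (s • X) * x) b) (fl (X * (NormedSpace.exp (s • X) * x)) b) s := by
  have h1 := (der_exp X s).mul_const x
  have h2 := der_lf h1 (Pi.single b 1)
  have h3 : ∀ z : Matrix B B ℂ, lf (Pi.single b 1) z = fl z b := by
    intro z
    unfold GP.lf
    rw [Finset.sum_eq_single b]
    · simp
    · intro k _ hk
      rw [Pi.single_eq_of_ne hk, zero_mul]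
    · intro h
      exact absurd (Finset.mem_univ b) h
  simp only [h3] at h2
  rw [← Matrix.mul_assoc]
  exact h2

end norm

/-- **the exponential of an element of the Lie algebra** -/
theorem exp_LL (hT : IsSubtorsor K T) {X x : Matrix B B ℂ} (hX : fl X ∈ LL T) (hx : x ∈ T) :
    NormedSpace.exp X * x ∈ T := by
  have hxT := hx
  obtain ⟨I, h1, h2⟩ := hT.algebraic
  have hIV : ∀ p ∈ I, Van T p := fun p hp y hy => ((h2 y).1 hy).2 p hp
  have hder : ∀ (P : MvPolynomial (B × B) ℂ) (s : ℂ),
      HasDerivAt (fun s : ℂ => MvPolynomial.eval (fl (NormedSpace.exp (s • X) * x)) P)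
        (MvPolynomial.eval (fl (NormedSpace.exp (s • X) * x)) (DL X P)) s := by
    intro P s
    rw [eval_DL, ml_fl]
    exact der_eval P (fun s => fl (NormedSpace.exp (s • X) * x)) _ s fun b => der_path X x s b
  have hit : ∀ (k : ℕ) (P : MvPolynomial (B × B) ℂ),
      iteratedDeriv k (fun s : ℂ => MvPolynomial.eval (fl (NormedSpace.exp (s • X) * x)) P) =
        fun s : ℂ => MvPolynomial.eval (fl (NormedSpace.exp (s • X) * x)) ((DL X)^[k] P) := by
    intro k
    induction k with
    | zero =>
      intro P
      rw [iteratedDeriv_zero]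
      rfl
    | succ k ih =>
      intro P
      rw [iteratedDeriv_succ', Function.iterate_succ_apply, ← ih]
      congr 1
      funext s
      exact (hder P s).deriv
  have hvan : ∀ (k : ℕ) (P : MvPolynomial (B × B) ℂ), Van T P → Van T ((DL X)^[k] P) := by
    intro k
    induction k with
    | zero => exact fun P hP => hP
    | succ k ih =>
      intro P hP
      rw [Function.iterate_succ_apply]
      exact ih _ (van_DL hX hP)
  have hzero : ∀ P : MvPolynomial (B × B) ℂ, Van T P → MvPolynomial.eval (fl (NormedSpace.exp X * x)) P = 0 := by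
    intro P hP
    have hdiff : Differentiable ℂ (fun s : ℂ => MvPolynomial.eval (fl (NormedSpace.exp (s • X) * x)) P) :=
      fun s => (hder P s).differentiableAt
    have h3 := Complex.taylorSeries_eq_of_entire hdiff 0 1
    have h4 : ∀ n : ℕ, iteratedDeriv n (fun s : ℂ => MvPolynomial.eval (fl (NormedSpace.exp (s • X) * x)) P) 0 = 0 := by
      intro n
      rw [hit]
      simp only [zero_smul, NormedSpace.exp_zero, Matrix.one_mul]
      exact hvan n P hP x hxT
    simp only [h4, smul_zero, tsum_zero, one_smul] at h3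
    exact h3.symm
  rw [h2]
  refine ⟨?_, fun p hp => hzero p (hIV p hp)⟩
  exact (Matrix.isUnit_exp X).mul (hT.isUnit x hxT)

end Pool.Agent.Q26.GP
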