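import Pool.Agent.Q26.GP.Gal

/-!
# Families: bounded degree
-/

set_option autoImplicit false
set_option linter.unusedSectionVars false

open PowerSeries

namespace Pool.Agent.Q26.GP

open Pool.Agent.TH127.PT Pool.Agent.Y123.ST Pool.Agent.TH119.DR

variable {n : ℕ}

/-- relations of degree at most `δ` with coefficients in `V` are specialisations of functional relations -/
def Func (Ω : Matrix (Fin n) (Fin n) ℂ) (Z : Matrix (Fin n) (Fin n) ℚ⟦X⟧) (x₀ δ : ℕ) (V : Submodule ℚ ℂ)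
    {k : ℕ} (m : Fin k → ℕ) : Prop :=
  ∀ P : MvPolynomial (Fin k × (Fin n × Fin n)) ℂ, P.totalDegree ≤ δ → (∀ s, P.coeff s ∈ V) →
    MvPolynomial.aeval (fun q : Fin k × (Fin n × Fin n) => (Ω * evZ Z (m q.1)) q.2.1 q.2.2) P = 0 →
    ∃ F : MvPolynomial (Fin k ⊕ (Fin k × (Fin n × Fin n))) ℂ,
      (∀ x : Fin k → ℝ, (∀ l, (x₀ : ℝ) < x l) → MvPolynomial.aeval (pt x fun l => Ω * evZ Z (x l)) F = 0) ∧
      MvPolynomial.aeval (Sum.elim (fun l => MvPolynomial.C ((1 / (m l : ℝ) : ℝ) : ℂ)) MvPolynomial.X) F = P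

/-- the arithmetic condition -/
def GC (g : ℚ⟦X⟧) : Prop := ∃ C : ℝ, (∀ m, |((coeff m g : ℚ) : ℝ)| ≤ C ^ (m + 1)) ∧
  ∀ m, ∃ d : ℕ, 0 < d ∧ (d : ℝ) ≤ C ^ (m + 1) ∧ ∀ j ≤ m, ∃ a : ℤ, (d : ℚ) * coeff j g = a

theorem dat {f : Polynomial ℚ} {A : Matrix (Fin n) (Fin n) (Polynomial ℚ)} {Z W : Matrix (Fin n) (Fin n) ℚ⟦X⟧}
    (hf : f.coeff 0 ≠ 0)
    (hode : ∀ i j, (f : ℚ⟦X⟧) * PowerSeries.derivative ℚ (Z i j) = ∑ k, Z i k * (A k j : ℚ⟦X⟧))
    (hW : W * Z = 1) (hGZ : ∀ i j, GC (Z i j)) (hGW : ∀ i j, GC (W i j)) :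
    Y113.GG.Dat f (fun i j => A i j) (fun i j => Z i j) (fun i j => W i j) := by
  have hG : ∀ g : ℚ⟦X⟧, GC g → Y113.SDc g := by
    rintro g ⟨C, h1, h2⟩
    have hC : 1 ≤ C := by
      obtain ⟨d, hd0, hd, -⟩ := h2 0
      have : (1 : ℝ) ≤ d := by exact_mod_cast hd0
      simpa using this.trans hd
    obtain ⟨a, ha⟩ := Y678.HG.exists_two_pow C
    refine ⟨a, fun m => (h1 m).trans (pow_le_pow_left₀ (by linarith) ha _), fun m => ?_⟩
    obtain ⟨d, hd0, hd, hd'⟩ := h2 m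
    exact ⟨d, hd0, hd.trans (pow_le_pow_left₀ (by linarith) ha _), hd'⟩
  refine ⟨hf, hode, fun i j => ?_, fun i j => hG _ (hGZ i j), fun i j => hG _ (hGW i j)⟩
  have h1 : (W * Z) i j = (1 : Matrix (Fin n) (Fin n) ℚ⟦X⟧) i j := by rw [hW]
  rw [Matrix.mul_apply] at h1
  rw [h1, Matrix.one_apply]

open Classical in
/-- the theorem on general families, with `Func` -/
theorem gf {f : Polynomial ℚ} {A : Matrix (Fin n) (Fin n) (Polynomial ℚ)} {Z W : Matrix (Fin n) (Fin n) ℚ⟦X⟧}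
    (hdat : Y113.GG.Dat f (fun i j => A i j) (fun i j => Z i j) (fun i j => W i j)) :
    ∃ x₀ G : ℕ, ∀ k δ D : ℕ,
      (∃ M : ℕ, ∃ c : ℝ, 0 < c ∧ ∀ Ω : Matrix (Fin n) (Fin n) ℂ, IsUnit Ω →
        ∀ V : Submodule ℚ ℂ, Module.Finite ℚ V → Module.finrank ℚ V ≤ D → ∀ N : ℕ, 1 ≤ N →
        ∃ S : Finset ℕ, S.card ≤ M ∧ ∀ m : Fin k → ℕ, (∀ i j, i ≠ j → (G : ℤ) ≤ |(m i : ℤ) - m j|) →
          (∀ i, N ≤ m i ∧ (m i : ℝ) ≤ N + (N : ℝ) ^ c ∧ m i ∉ S) → Func Ω Z x₀ δ V m) ∧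
      ∃ c : ℝ, 0 < c ∧ ∃ C : ℝ, ∀ Ω : Matrix (Fin n) (Fin n) ℂ, IsUnit Ω →
        ∀ V : Submodule ℚ ℂ, Module.Finite ℚ V → Module.finrank ℚ V ≤ D → ∀ T : ℕ, 1 ≤ T →
        (((Fintype.piFinset fun _ : Fin k => Finset.Icc 2 T).filter fun m => ¬ Func Ω Z x₀ δ V m).card : ℝ) ≤
          C * (T : ℝ) ^ ((k : ℝ) - c) := by
  obtain ⟨x₀, G, hmain⟩ := Y113.GG.main hdat
  refine ⟨x₀, G, fun k δ D => ?_⟩
  obtain ⟨⟨M, E, hwin⟩, c, hc, C, hcount⟩ := hmain δ k D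
  refine ⟨?_, c, hc, C, ?_⟩
  · obtain ⟨c', hc', hconv⟩ := Y113.GG.conv k G E M
    refine ⟨M + 3, c', hc', ?_⟩
    rintro _ ⟨u, rfl⟩ V hV hVD N hN
    exact hconv _ (hwin (u : Matrix (Fin n) (Fin n) ℂ) (u⁻¹ : _) u.mul_inv u.inv_mul V hV hVD) N hN
  · rintro _ ⟨u, rfl⟩ V hV hVD T hT
    exact hcount (u : Matrix (Fin n) (Fin n) ℂ) (u⁻¹ : _) u.mul_inv u.inv_mul V hV hVD T hT

/-- the degree after a substitution of polynomials of degree at most one -/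
theorem deg_aeval {R : Type*} [CommRing R] {σ τ : Type*} (f : σ → MvPolynomial τ R)
    (hf : ∀ i, (f i).totalDegree ≤ 1) (P : MvPolynomial σ R) :
    (MvPolynomial.aeval f P).totalDegree ≤ P.totalDegree := by
  classical
  rw [MvPolynomial.aeval_def, MvPolynomial.eval₂_eq]
  refine (MvPolynomial.totalDegree_finsetSum _ _).trans (Finset.sup_le fun m hm => ?_)
  refine (MvPolynomial.totalDegree_mul _ _).trans ?_
  rw [MvPolynomial.algebraMap_eq, MvPolynomial.totalDegree_C, zero_add]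
  refine (MvPolynomial.totalDegree_finsetProd _ _).trans ?_
  refine le_trans (Finset.sum_le_sum fun i _ => (MvPolynomial.totalDegree_pow _ _).trans
    (Nat.mul_le_mul_left _ (hf i))) ?_
  simp only [mul_one]
  exact MvPolynomial.le_totalDegree hm

open Matrix in
/-- the substitution of the blocks -/
noncomputable def fb (K : Subfield ℂ) (n k : ℕ) (b : (Fin n × Fin k) × (Fin n × Fin k)) :
    MvPolynomial (Fin k × (Fin n × Fin n)) K :=
  if b.1.2 = b.2.2 then MvPolynomial.X (b.1.2, (b.1.1, b.2.1)) else 0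

theorem fb_deg (K : Subfield ℂ) (n k : ℕ) (b : (Fin n × Fin k) × (Fin n × Fin k)) : (fb K n k b).totalDegree ≤ 1 := by
  unfold fb
  split_ifs
  · rw [MvPolynomial.totalDegree_X]
  · rw [MvPolynomial.totalDegree_zero]
    exact Nat.zero_le _

open Matrix in
theorem fb_ev {K : Subfield ℂ} {n k : ℕ} (P0 : MvPolynomial ((Fin n × Fin k) × (Fin n × Fin k)) K)
    (Y : Fin k → Matrix (Fin n) (Fin n) ℂ) :
    MvPolynomial.eval (fl (blockDiagonal Y)) (P0.map (algebraMap K ℂ)) =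
      MvPolynomial.aeval (fun q : Fin k × (Fin n × Fin n) => Y q.1 q.2.1 q.2.2)
        ((MvPolynomial.aeval (fb K n k) P0).map (algebraMap K ℂ)) := by
  have h : (MvPolynomial.eval (fl (blockDiagonal Y))).comp (MvPolynomial.map (algebraMap K ℂ)) =
      ((MvPolynomial.aeval (R := ℂ) (fun q : Fin k × (Fin n × Fin n) => Y q.1 q.2.1 q.2.2)).toRingHom.comp
        ((MvPolynomial.map (algebraMap K ℂ)).comp (MvPolynomial.aeval (R := K) (fb K n k)).toRingHom)) := by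
    refine MvPolynomial.ringHom_ext (fun a => ?_) fun b => ?_
    · simp
    · simp only [RingHom.coe_comp, Function.comp_apply, AlgHom.toRingHom_eq_coe, RingHom.coe_coe, MvPolynomial.aeval_X,
        MvPolynomial.map_X, MvPolynomial.eval_X]
      show blockDiagonal Y b.1 b.2 = MvPolynomial.aeval _ (MvPolynomial.map _
        (if b.1.2 = b.2.2 then MvPolynomial.X (b.1.2, (b.1.1, b.2.1)) else 0))
      rw [blockDiagonal_apply]
      by_cases hb : b.1.2 = b.2.2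
      · rw [if_pos hb, if_pos hb, MvPolynomial.map_X, MvPolynomial.aeval_X]
      · rw [if_neg hb, if_neg hb, map_zero, map_zero]
  exact congrFun (congrArg DFunLike.coe h) P0

theorem deg_map {K : Subfield ℂ} {τ : Type} (Q : MvPolynomial τ K) :
    (MvPolynomial.map (algebraMap K ℂ) Q).totalDegree = Q.totalDegree := by
  unfold MvPolynomial.totalDegree
  rw [MvPolynomial.support_map_of_injective Q (algebraMap K ℂ).injective]

theorem pt_ev {k : ℕ} (m : Fin k → ℕ) (Y : Fin k → Matrix (Fin n) (Fin n) ℂ)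
    (F : MvPolynomial (Fin k ⊕ (Fin k × (Fin n × Fin n))) ℂ) :
    MvPolynomial.aeval (fun q : Fin k × (Fin n × Fin n) => Y q.1 q.2.1 q.2.2)
      (MvPolynomial.aeval (Sum.elim (fun l => MvPolynomial.C ((1 / (m l : ℝ) : ℝ) : ℂ)) MvPolynomial.X) F) =
      MvPolynomial.aeval (pt (fun l => (m l : ℝ)) Y) F := by
  rw [← AlgHom.comp_apply, MvPolynomial.comp_aeval]
  congr 2
  funext o
  rcases o with l | q
  · rw [Sum.elim_inl, MvPolynomial.aeval_C]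
    rfl
  · rw [Sum.elim_inr, MvPolynomial.aeval_X]
    rfl

open Matrix in
/-- relations of bounded degree are preserved by the Galois group -/
theorem rel_of_func {Z : Matrix (Fin n) (Fin n) ℚ⟦X⟧} {C : ℝ} (hC : 1 ≤ C)
    (hZ : ∀ i j m, |((coeff m (Z i j) : ℚ) : ℝ)| ≤ C ^ (m + 1)) {k : ℕ} {Ω : Matrix (Fin n) (Fin n) ℂ}
    {x₀ d : ℕ} {K : Subfield ℂ} {V : Submodule ℚ ℂ} (hV : ∀ x ∈ K, x ∈ V) {m : Fin k → ℕ} (hF : Func Ω Z x₀ d V m)
    (hm : ∀ l, C < m l ∧ x₀ < m l) :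
    Rel K (blockDiagonal fun l => Ω * evZ Z (m l)) d
      {y | ∃ γ : Fin k → Matrix (Fin n) (Fin n) ℂ, (∀ l, IsGal Z (γ l)) ∧
        y = blockDiagonal fun l => Ω * (γ l * evZ Z (m l))} := by
  rintro P hPK hPd hP0 _ ⟨γ, hγ, rfl⟩
  obtain ⟨P0, rfl⟩ := exists_map P hPK
  rw [fb_ev] at hP0 ⊢
  rw [deg_map] at hPd
  have hcoef : ∀ s, ((MvPolynomial.aeval (fb K n k) P0).map (algebraMap K ℂ)).coeff s ∈ V := by
    intro s
    rw [MvPolynomial.coeff_map]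
    exact hV _ (SetLike.coe_mem _)
  obtain ⟨F, hF1, hF2⟩ := hF ((MvPolynomial.aeval (fb K n k) P0).map (algebraMap K ℂ)) (by
    rw [deg_map]
    exact (deg_aeval _ (fb_deg K n k) P0).trans hPd) hcoef hP0
  rw [← hF2]
  have hx : ∀ x : Fin k → ℝ, (∀ l, max C (x₀ : ℝ) < x l) →
      MvPolynomial.aeval (pt x fun l => Ω * evZ Z (x l)) F = 0 := fun x hx =>
    hF1 x fun l => (le_max_right C (x₀ : ℝ)).trans_lt (hx l)
  have h1 := galk hC hZ Ω hγ F (le_max_left C (x₀ : ℝ)) hx Finset.univ (fun l => (m l : ℝ)) (fun l => max_lt (hm l).1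
    (Nat.cast_lt.2 (hm l).2))
  simp only [Finset.mem_univ, if_true] at h1
  rw [← h1]
  exact pt_ev m (fun l => Ω * (γ l * evZ Z (m l))) F

end Pool.Agent.Q26.GP
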