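import Pool.Agent.Q26.GP.Fam

/-!
# Families: the smallest subtorsor contains the orbit of the monodromy group, for almost all members
-/

set_option autoImplicit false
set_option linter.unusedSectionVars false

open PowerSeries

namespace Pool.Agent.Q26.GP

open Pool.Agent.TH127.PT Pool.Agent.Y123.ST Pool.Agent.TH119.DR Matrix

variable {n : ℕ}

/-- the conjugates of `k` matrices by `Ω`, as a block diagonal matrix -/
noncomputable def LB (Ω : Matrix (Fin n) (Fin n) ℂ) (k : ℕ) :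
    (Fin k → Matrix (Fin n) (Fin n) ℂ) →ₗ[ℂ] Matrix (Fin n × Fin k) (Fin n × Fin k) ℂ where
  toFun X := blockDiagonal fun l => Ω * X l * Ω⁻¹
  map_add' X Y := by
    rw [← blockDiagonal_add]
    congr 1
    funext l
    rw [Pi.add_apply, Pi.add_apply, Matrix.mul_add, Matrix.add_mul]
  map_smul' a X := by
    rw [RingHom.id_apply, ← blockDiagonal_smul]
    congr 1
    funext l
    rw [Pi.smul_apply, Pi.smul_apply, Matrix.mul_smul, Matrix.smul_mul]

theorem LB_apply (Ω : Matrix (Fin n) (Fin n) ℂ) {k : ℕ} (X : Fin k → Matrix (Fin n) (Fin n) ℂ) :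
    LB Ω k X = blockDiagonal fun l => Ω * X l * Ω⁻¹ := rfl

/-- the Lie algebra of the product -/
noncomputable def gk (Ω : Matrix (Fin n) (Fin n) ℂ) (k : ℕ) (g : Submodule ℂ (Matrix (Fin n) (Fin n) ℂ)) :
    Submodule ℂ (Matrix (Fin n × Fin k) (Fin n × Fin k) ℂ) :=
  (Submodule.pi Set.univ fun _ : Fin k => g).map (LB Ω k)

theorem LB_mul {Ω : Matrix (Fin n) (Fin n) ℂ} (hΩ : IsUnit Ω) {k : ℕ} (X Y : Fin k → Matrix (Fin n) (Fin n) ℂ) :
    LB Ω k X * LB Ω k Y = LB Ω k (X * Y) := by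
  have h1 : Ω⁻¹ * Ω = 1 := nonsing_inv_mul _ ((isUnit_iff_isUnit_det Ω).1 hΩ)
  rw [LB_apply, LB_apply, LB_apply, ← blockDiagonal_mul]
  congr 1
  funext l
  rw [Pi.mul_apply]
  calc Ω * X l * Ω⁻¹ * (Ω * Y l * Ω⁻¹) = Ω * X l * (Ω⁻¹ * Ω) * Y l * Ω⁻¹ := by simp only [Matrix.mul_assoc]
    _ = Ω * (X l * Y l) * Ω⁻¹ := by rw [h1, Matrix.mul_one]; simp only [Matrix.mul_assoc]

theorem third_gk {Ω : Matrix (Fin n) (Fin n) ℂ} (hΩ : IsUnit Ω) (k : ℕ) (g : Submodule ℂ (Matrix (Fin n) (Fin n) ℂ)) :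
    gk Ω k (third g) ≤ third (gk Ω k g) := by
  classical
  rintro _ ⟨X, hX, rfl⟩
  have hX' : ∀ l, X l ∈ third g := fun l => (Submodule.mem_pi.1 hX) l (Set.mem_univ l)
  rw [← Finset.univ_sum_single X, map_sum]
  refine Submodule.sum_mem _ fun l _ => ?_
  have hsingle : ∀ A ∈ g, LB Ω k (Pi.single l A) ∈ gk Ω k g := by
    intro A hA
    refine ⟨Pi.single l A, Submodule.mem_pi.2 fun j _ => ?_, rfl⟩
    by_cases hj : j = l
    · subst hj
      rw [Pi.single_eq_same]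
      exact hA
    · rw [Pi.single_eq_of_ne hj]
      exact g.zero_mem
  have key : ∀ Z ∈ third g, LB Ω k (Pi.single l Z) ∈ third (gk Ω k g) := by
    intro Z hZ
    unfold third at hZ
    induction hZ using Submodule.span_induction with
    | mem Z hZ =>
      obtain ⟨A, hA, B, hB, C, hC, rfl⟩ := hZ
      refine Submodule.subset_span ⟨_, hsingle A hA, _, hsingle B hB, _, hsingle C hC, ?_⟩
      rw [LB_mul hΩ, LB_mul hΩ, ← map_sub, ← Pi.single_mul, ← Pi.single_mul, ← Pi.single_sub, LB_mul hΩ, LB_mul hΩ,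
        ← map_sub, ← Pi.single_mul, ← Pi.single_mul, ← Pi.single_sub]
    | zero =>
      rw [Pi.single_zero, map_zero]
      exact Submodule.zero_mem _
    | add a b _ _ ha hb =>
      rw [Pi.single_add, map_add]
      exact Submodule.add_mem _ ha hb
    | smul z a _ ha =>
      rw [Pi.single_smul, map_smul]
      exact Submodule.smul_mem _ z ha
  exact key _ (hX' l)

section norm

attribute [local instance] Matrix.linftyOpNormedRing Matrix.linftyOpNormedAlgebra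

theorem exp_pi {k : ℕ} (X : Fin k → Matrix (Fin n) (Fin n) ℂ) (l : Fin k) :
    NormedSpace.exp X l = NormedSpace.exp (X l) := by
  have h : ∀ _ : Fin k, @CompleteSpace (Matrix (Fin n) (Fin n) ℂ)
    (@PseudoMetricSpace.toUniformSpace _ (@SeminormedRing.toPseudoMetricSpace _
      (@NormedRing.toSeminormedRing _ Matrix.linftyOpNormedRing))) := fun _ => FiniteDimensional.complete ℂ _
  exact @Pi.coe_exp (Fin k) (fun _ => Matrix (Fin n) (Fin n) ℂ) _ _ _ h X l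

end norm

theorem exp_LB {Ω : Matrix (Fin n) (Fin n) ℂ} (hΩ : IsUnit Ω) {k : ℕ} (X : Fin k → Matrix (Fin n) (Fin n) ℂ) :
    NormedSpace.exp (LB Ω k X) = blockDiagonal fun l => Ω * NormedSpace.exp (X l) * Ω⁻¹ := by
  rw [LB_apply, Matrix.exp_blockDiagonal]
  congr 1
  funext l
  rw [exp_pi]
  exact Matrix.exp_conj Ω (X l) hΩ

theorem Rel.mono {B : Type} [Fintype B] [DecidableEq B] {K : Subfield ℂ} {c : Matrix B B ℂ} {d : ℕ}
    {Y Y' : Set (Matrix B B ℂ)} (h : Rel K c d Y) (hY : Y' ⊆ Y) : Rel K c d Y' :=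
  fun P h1 h2 h3 y hy => h P h1 h2 h3 y (hY hy)

/-- the smallest subtorsor is stable under the exponentials of `g` -/
def Stb {B : Type} [Fintype B] [DecidableEq B] (K : Subfield ℂ) (c : Matrix B B ℂ)
    (g : Submodule ℂ (Matrix B B ℂ)) : Prop :=
  ∀ T : Set (Matrix B B ℂ), IsSubtorsor K T → c ∈ T → ∀ X ∈ g, ∀ x ∈ T, NormedSpace.exp X * x ∈ T

/-- the property of the `k`-tuple -/
def Good (Z : Matrix (Fin n) (Fin n) ℚ⟦X⟧) (Ω : Matrix (Fin n) (Fin n) ℂ) (K : Subfield ℂ) {k : ℕ} (m : Fin k → ℕ) : Prop :=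
  ∀ g : Submodule ℂ (Matrix (Fin n) (Fin n) ℂ), (∀ X ∈ g, IsGal Z (NormedSpace.exp X)) →
    Stb K (blockDiagonal fun l => Ω * evZ Z (m l)) (gk Ω k (third g))

theorem good_of_func {Z : Matrix (Fin n) (Fin n) ℚ⟦X⟧} {C : ℝ} (hC : 1 ≤ C)
    (hZ : ∀ i j m, |((coeff m (Z i j) : ℚ) : ℝ)| ≤ C ^ (m + 1)) {k : ℕ} {Ω : Matrix (Fin n) (Fin n) ℂ} (hΩ : IsUnit Ω)
    {x₀ d : ℕ} (hd : ∀ (K : Subfield ℂ), (∀ x ∈ K, IsAlgebraic ℚ x) →
      ∀ (T : Set (Matrix (Fin n × Fin k) (Fin n × Fin k) ℂ)), IsSubtorsor K T → ∀ c ∈ T,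
      ∀ g : Submodule ℂ (Matrix (Fin n × Fin k) (Fin n × Fin k) ℂ), RelT K T d (Orb g c) →
      ∀ X ∈ third g, ∀ x ∈ T, NormedSpace.exp X * x ∈ T)
    {K : Subfield ℂ} (hK : ∀ x ∈ K, IsAlgebraic ℚ x) {V : Submodule ℚ ℂ} (hV : ∀ x ∈ K, x ∈ V) {m : Fin k → ℕ}
    (hF : Func Ω Z x₀ d V m) (hm : ∀ l, C < m l ∧ x₀ < m l) : Good Z Ω K m := by
  intro g hgal T hT hc X hX
  refine hd K hK T hT _ hc (gk Ω k g) ?_ X (third_gk hΩ k g hX)
  refine Rel.relT ((rel_of_func hC hZ hV hF hm).mono ?_) hc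
  rintro _ ⟨_, ⟨X, hX, rfl⟩, rfl⟩
  refine ⟨fun l => NormedSpace.exp (X l), fun l => hgal _ (Submodule.mem_pi.1 hX l (Set.mem_univ l)), ?_⟩
  have h1 : Ω⁻¹ * Ω = 1 := nonsing_inv_mul _ ((isUnit_iff_isUnit_det Ω).1 hΩ)
  rw [exp_LB hΩ, ← blockDiagonal_mul]
  congr 1
  funext l
  calc Ω * NormedSpace.exp (X l) * Ω⁻¹ * (Ω * evZ Z (m l)) =
      Ω * NormedSpace.exp (X l) * (Ω⁻¹ * Ω) * evZ Z (m l) := by simp only [Matrix.mul_assoc]
    _ = Ω * (NormedSpace.exp (X l) * evZ Z (m l)) := by rw [h1, Matrix.mul_one, Matrix.mul_assoc]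

/-- the number of tuples with a small entry -/
theorem card_small (k x₁ T : ℕ) :
    ((Fintype.piFinset fun _ : Fin k => Finset.Icc 2 T).filter fun m => ∃ l, m l ≤ x₁).card ≤
      k * (x₁ * T ^ (k - 1)) := by
  classical
  have h1 : (Fintype.piFinset fun _ : Fin k => Finset.Icc 2 T).filter (fun m => ∃ l, m l ≤ x₁) ⊆
      Finset.univ.biUnion fun l : Fin k => Fintype.piFinset fun j : Fin k =>
        if j = l then Finset.Icc 1 x₁ else Finset.Icc 1 T := by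
    intro m hm
    rw [Finset.mem_filter, Fintype.mem_piFinset] at hm
    obtain ⟨h2, l, hl⟩ := hm
    rw [Finset.mem_biUnion]
    refine ⟨l, Finset.mem_univ l, ?_⟩
    rw [Fintype.mem_piFinset]
    intro j
    have h3 := Finset.mem_Icc.1 (h2 j)
    by_cases hj : j = l
    · subst hj
      rw [if_pos rfl, Finset.mem_Icc]
      omega
    · rw [if_neg hj, Finset.mem_Icc]
      omega
  refine (Finset.card_le_card h1).trans (Finset.card_biUnion_le.trans ?_)
  have h2 : ∀ l : Fin k, (Fintype.piFinset fun j : Fin k =>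
      if j = l then Finset.Icc 1 x₁ else Finset.Icc 1 T).card = x₁ * T ^ (k - 1) := by
    intro l
    rw [Fintype.card_piFinset]
    have h3 : ∀ j : Fin k, (if j = l then Finset.Icc 1 x₁ else Finset.Icc 1 T).card = if j = l then x₁ else T := by
      intro j
      split_ifs <;> simp
    simp only [h3]
    rw [← Finset.mul_prod_erase Finset.univ _ (Finset.mem_univ l), if_pos rfl]
    congr 1
    rw [Finset.prod_congr rfl (fun j hj => if_neg (Finset.ne_of_mem_erase hj)), Finset.prod_const,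
      Finset.card_erase_of_mem (Finset.mem_univ l), Finset.card_univ, Fintype.card_fin]
  simp only [h2]
  rw [Finset.sum_const, Finset.card_univ, Fintype.card_fin, smul_eq_mul]

open Classical in
/-- **families** -/
theorem fam {f : Polynomial ℚ} {A : Matrix (Fin n) (Fin n) (Polynomial ℚ)} {Z W : Matrix (Fin n) (Fin n) ℚ⟦X⟧}
    (hdat : Y113.GG.Dat f (fun i j => A i j) (fun i j => Z i j) (fun i j => W i j)) :
    ∃ G : ℕ, ∀ k D : ℕ,
      (∃ M : ℕ, ∃ c : ℝ, 0 < c ∧ ∀ Ω : Matrix (Fin n) (Fin n) ℂ, IsUnit Ω →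
        ∀ K : Subfield ℂ, FiniteDimensional ℚ K → Module.finrank ℚ K ≤ D → ∀ N : ℕ, 1 ≤ N →
        ∃ S : Finset ℕ, S.card ≤ M ∧ ∀ m : Fin k → ℕ, (∀ i j, i ≠ j → (G : ℤ) ≤ |(m i : ℤ) - m j|) →
          (∀ i, N ≤ m i ∧ (m i : ℝ) ≤ N + (N : ℝ) ^ c ∧ m i ∉ S) → Good Z Ω K m) ∧
      ∃ c : ℝ, 0 < c ∧ ∃ C : ℝ, ∀ Ω : Matrix (Fin n) (Fin n) ℂ, IsUnit Ω →
        ∀ K : Subfield ℂ, FiniteDimensional ℚ K → Module.finrank ℚ K ≤ D → ∀ T : ℕ, 1 ≤ T →
        (((Fintype.piFinset fun _ : Fin k => Finset.Icc 2 T).filter fun m => ¬ Good Z Ω K m).card : ℝ) ≤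
          C * (T : ℝ) ^ ((k : ℝ) - c) := by
  obtain ⟨C₀, hC₀, hZ, -⟩ := hdat.bound
  obtain ⟨x₀, G, hmain⟩ := gf hdat
  refine ⟨G, fun k D => ?_⟩
  obtain ⟨d, hd⟩ := crit (Fin n × Fin k)
  obtain ⟨⟨M, c, hc, hwin⟩, c', hc', C, hcount⟩ := hmain k d D
  obtain ⟨x₁, hx₁⟩ : ∃ x₁ : ℕ, ∀ y : ℕ, x₁ < y → C₀ < y ∧ x₀ < y := by
    obtain ⟨a, ha⟩ := exists_nat_gt C₀
    refine ⟨max a x₀, fun y hy => ⟨ha.trans ?_, (le_max_right a x₀).trans_lt hy⟩⟩
    exact_mod_cast (le_max_left a x₀).trans_lt hy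
  -- the field as a space
  have hV : ∀ K : Subfield ℂ, FiniteDimensional ℚ K → Module.finrank ℚ K ≤ D → ∃ V : Submodule ℚ ℂ,
      Module.Finite ℚ V ∧ Module.finrank ℚ V ≤ D ∧ (∀ x ∈ K, x ∈ V) ∧ ∀ x ∈ K, IsAlgebraic ℚ x := by
    intro K hK hKD
    refine ⟨LinearMap.range (IsScalarTower.toAlgHom ℚ K ℂ).toLinearMap, inferInstance,
      (LinearMap.finrank_range_le _).trans hKD, fun x hx => ⟨⟨x, hx⟩, rfl⟩, fun x hx => ?_⟩
    have h1 : IsAlgebraic ℚ (⟨x, hx⟩ : K) := Algebra.IsAlgebraic.isAlgebraic _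
    exact h1.algebraMap (A := ℂ)
  refine ⟨⟨M + (x₁ + 1), c, hc, fun Ω hΩ K hK hKD N hN => ?_⟩, min c' 1, lt_min hc' one_pos,
    max C 0 + k * x₁, fun Ω hΩ K hK hKD T hT => ?_⟩
  · obtain ⟨V, hVf, hVD, hKV, halg⟩ := hV K hK hKD
    obtain ⟨S, hS, hS2⟩ := hwin Ω hΩ V hVf hVD N hN
    refine ⟨S ∪ Finset.range (x₁ + 1), (Finset.card_union_le _ _).trans ?_, fun m hm hm2 => ?_⟩
    · rw [Finset.card_range]
      omega
    · have h1 : ∀ i, m i ∉ S ∧ x₁ < m i := by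
        intro i
        have h2 := (hm2 i).2.2
        rw [Finset.mem_union, not_or, Finset.mem_range] at h2
        exact ⟨h2.1, by omega⟩
      exact good_of_func hC₀ hZ hΩ hd halg hKV (hS2 m hm fun i => ⟨(hm2 i).1, (hm2 i).2.1, (h1 i).1⟩)
        fun l => hx₁ _ (h1 l).2
  · obtain ⟨V, hVf, hVD, hKV, halg⟩ := hV K hK hKD
    have h1 := hcount Ω hΩ V hVf hVD T hT
    have hT1 : (1 : ℝ) ≤ T := by exact_mod_cast hT
    have hsub : (Fintype.piFinset fun _ : Fin k => Finset.Icc 2 T).filter (fun m => ¬ Good Z Ω K m) ⊆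
        (Fintype.piFinset fun _ : Fin k => Finset.Icc 2 T).filter (fun m => ¬ Func Ω Z x₀ d V m) ∪
        (Fintype.piFinset fun _ : Fin k => Finset.Icc 2 T).filter (fun m => ∃ l, m l ≤ x₁) := by
      intro m hm
      rw [Finset.mem_union, Finset.mem_filter, Finset.mem_filter]
      rw [Finset.mem_filter] at hm
      by_cases h2 : ∃ l, m l ≤ x₁
      · exact Or.inr ⟨hm.1, h2⟩
      · refine Or.inl ⟨hm.1, fun h3 => hm.2 ?_⟩
        push Not at h2
        exact good_of_func hC₀ hZ hΩ hd halg hKV h3 fun l => hx₁ _ (h2 l)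
    have h2 : (((Fintype.piFinset fun _ : Fin k => Finset.Icc 2 T).filter fun m => ∃ l, m l ≤ x₁).card : ℝ) ≤
        k * x₁ * (T : ℝ) ^ ((k : ℝ) - min c' 1) := by
      rcases Nat.eq_zero_or_pos k with hk | hk
      · subst hk
        have h3 : ((Fintype.piFinset fun _ : Fin 0 => Finset.Icc 2 T).filter fun m => ∃ l, m l ≤ x₁) = ∅ := by
          rw [Finset.filter_eq_empty_iff]
          rintro m _ ⟨l, _⟩
          exact l.elim0
        rw [h3]
        simp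
      · have h3 : (((Fintype.piFinset fun _ : Fin k => Finset.Icc 2 T).filter fun m => ∃ l, m l ≤ x₁).card : ℝ) ≤
            k * (x₁ * (T : ℝ) ^ (k - 1)) := by exact_mod_cast card_small k x₁ T
        refine h3.trans ?_
        rw [mul_assoc]
        refine mul_le_mul_of_nonneg_left (mul_le_mul_of_nonneg_left ?_ (by positivity)) (by positivity)
        rw [← Real.rpow_natCast]
        refine Real.rpow_le_rpow_of_exponent_le hT1 ?_
        rw [Nat.cast_sub hk, Nat.cast_one]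
        linarith [min_le_right c' 1]
    have h3 : C * (T : ℝ) ^ ((k : ℝ) - c') ≤ max C 0 * (T : ℝ) ^ ((k : ℝ) - min c' 1) := by
      refine mul_le_mul (le_max_left _ _) (Real.rpow_le_rpow_of_exponent_le hT1 ?_) (by positivity) (le_max_right _ _)
      linarith [min_le_left c' 1]
    have h4 : (((Fintype.piFinset fun _ : Fin k => Finset.Icc 2 T).filter fun m => ¬ Good Z Ω K m).card : ℝ) ≤
        (((Fintype.piFinset fun _ : Fin k => Finset.Icc 2 T).filter fun m => ¬ Func Ω Z x₀ d V m).card : ℝ) +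
        (((Fintype.piFinset fun _ : Fin k => Finset.Icc 2 T).filter fun m => ∃ l, m l ≤ x₁).card : ℝ) := by
      exact_mod_cast (Finset.card_le_card hsub).trans (Finset.card_union_le _ _)
    calc _ ≤ _ := h4
      _ ≤ C * (T : ℝ) ^ ((k : ℝ) - c') + k * x₁ * (T : ℝ) ^ ((k : ℝ) - min c' 1) := add_le_add h1 h2
      _ ≤ max C 0 * (T : ℝ) ^ ((k : ℝ) - min c' 1) + k * x₁ * (T : ℝ) ^ ((k : ℝ) - min c' 1) := by linarith
      _ = _ := by ring

end Pool.Agent.Q26.GP
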