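import Pool.Agent.Q26.GP.Ev

/-!
# Functional relations are preserved by the Galois group
-/

set_option autoImplicit false
set_option linter.unusedSectionVars false

open PowerSeries

namespace Pool.Agent.Q26.GP

open Pool.Agent.TH127.PT Pool.Agent.Y123.ST Pool.Agent.TH119.DR

variable {n : ℕ}

/-- the value of the matrix `Z` at `1 / x` -/
noncomputable def evZ (Z : Matrix (Fin n) (Fin n) ℚ⟦X⟧) (x : ℝ) : Matrix (Fin n) (Fin n) ℂ :=
  Matrix.of fun a b => ((∑' m : ℕ, ((coeff m (Z a b) : ℚ) : ℝ) * (1 / x) ^ m : ℝ) : ℂ)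

/-- the entries of `Z` over `ℂ` -/
noncomputable def ZC (Z : Matrix (Fin n) (Fin n) ℚ⟦X⟧) : Matrix (Fin n) (Fin n) ℂ⟦X⟧ :=
  Z.map (PowerSeries.map (algebraMap ℚ ℂ))

/-- the variable and the entries of a matrix -/
def vr {R : Type} (x : R) (Y : Matrix (Fin n) (Fin n) R) (o : Option (Fin n × Fin n)) : R :=
  o.elim x fun p => Y p.1 p.2

/-- `γ` preserves the polynomial relations over `ℂ` between `z` and the entries of `Z` -/
def IsGal (Z : Matrix (Fin n) (Fin n) ℚ⟦X⟧) (γ : Matrix (Fin n) (Fin n) ℂ) : Prop :=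
  ∀ F : MvPolynomial (Option (Fin n × Fin n)) ℂ,
    MvPolynomial.aeval (vr (PowerSeries.X : ℂ⟦X⟧) (ZC Z)) F = 0 →
    MvPolynomial.aeval (vr (PowerSeries.X : ℂ⟦X⟧) (γ.map (PowerSeries.C : ℂ →+* ℂ⟦X⟧) * ZC Z)) F = 0

theorem Ev.sum {z : ℂ} {ι : Type*} (s : Finset ι) {φ : ι → ℂ⟦X⟧} {v : ι → ℂ} (h : ∀ i, Ev z (φ i) (v i)) :
    Ev z (∑ i ∈ s, φ i) (∑ i ∈ s, v i) := by
  classical
  induction s using Finset.induction_on with
  | empty =>
    rw [Finset.sum_empty, Finset.sum_empty]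
    exact Ev.zero z
  | insert a s ha ih =>
    rw [Finset.sum_insert ha, Finset.sum_insert ha]
    exact (h a).add ih

theorem ev_vr {Z : Matrix (Fin n) (Fin n) ℚ⟦X⟧} {C : ℝ} (hC : 1 ≤ C)
    (hZ : ∀ i j m, |((coeff m (Z i j) : ℚ) : ℝ)| ≤ C ^ (m + 1)) {x : ℝ} (hx : C < x) (o : Option (Fin n × Fin n)) :
    Ev ((1 / x : ℝ) : ℂ) (vr (PowerSeries.X : ℂ⟦X⟧) (ZC Z) o) (vr ((1 / x : ℝ) : ℂ) (evZ Z x) o) := by
  rcases o with _ | p
  · exact Ev.X _
  · exact Ev.of_growth hC (hZ p.1 p.2) hx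

theorem ev_vr_gal {Z : Matrix (Fin n) (Fin n) ℚ⟦X⟧} {C : ℝ} (hC : 1 ≤ C)
    (hZ : ∀ i j m, |((coeff m (Z i j) : ℚ) : ℝ)| ≤ C ^ (m + 1)) (γ : Matrix (Fin n) (Fin n) ℂ) {x : ℝ} (hx : C < x)
    (o : Option (Fin n × Fin n)) :
    Ev ((1 / x : ℝ) : ℂ) (vr (PowerSeries.X : ℂ⟦X⟧) (γ.map (PowerSeries.C : ℂ →+* ℂ⟦X⟧) * ZC Z) o)
      (vr ((1 / x : ℝ) : ℂ) (γ * evZ Z x) o) := by
  rcases o with _ | p
  · exact Ev.X _
  · show Ev _ ((γ.map (PowerSeries.C : ℂ →+* ℂ⟦X⟧) * ZC Z) p.1 p.2) ((γ * evZ Z x) p.1 p.2)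
    rw [Matrix.mul_apply, Matrix.mul_apply]
    refine Ev.sum _ fun a => ?_
    exact (Ev.C _ _).mul (Ev.of_growth hC (hZ a p.2) hx)

/-- one variable -/
theorem gal1 {Z : Matrix (Fin n) (Fin n) ℚ⟦X⟧} {C : ℝ} (hC : 1 ≤ C)
    (hZ : ∀ i j m, |((coeff m (Z i j) : ℚ) : ℝ)| ≤ C ^ (m + 1)) {γ : Matrix (Fin n) (Fin n) ℂ} (hγ : IsGal Z γ)
    (F : MvPolynomial (Option (Fin n × Fin n)) ℂ) {x₁ : ℝ} (hx₁ : C ≤ x₁)
    (h : ∀ x : ℝ, x₁ < x → MvPolynomial.aeval (vr ((1 / x : ℝ) : ℂ) (evZ Z x)) F = 0) {x : ℝ} (hx : x₁ < x) :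
    MvPolynomial.aeval (vr ((1 / x : ℝ) : ℂ) (γ * evZ Z x)) F = 0 := by
  have h1 : MvPolynomial.aeval (vr (PowerSeries.X : ℂ⟦X⟧) (ZC Z)) F = 0 := by
    refine eq_zero_of_ev (x₀ := x₁) fun y hy => ?_
    have h2 := Ev.aeval (ev_vr hC hZ (hx₁.trans_lt hy)) F
    rwa [h y hy] at h2
  have h2 := hγ F h1
  have h3 := Ev.aeval (ev_vr_gal hC hZ γ (hx₁.trans_lt hx)) F
  rw [h2] at h3
  exact h3.unique (Ev.zero _)

/-- the point of the product -/
noncomputable def pt {k : ℕ} (x : Fin k → ℝ) (Y : Fin k → Matrix (Fin n) (Fin n) ℂ) : Fin k ⊕ (Fin k × (Fin n × Fin n)) → ℂ :=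
  Sum.elim (fun l => ((1 / x l : ℝ) : ℂ)) fun q => Y q.1 q.2.1 q.2.2

/-- several variables -/
theorem galk {Z : Matrix (Fin n) (Fin n) ℚ⟦X⟧} {C : ℝ} (hC : 1 ≤ C)
    (hZ : ∀ i j m, |((coeff m (Z i j) : ℚ) : ℝ)| ≤ C ^ (m + 1)) {k : ℕ} (Ω : Matrix (Fin n) (Fin n) ℂ)
    {γ : Fin k → Matrix (Fin n) (Fin n) ℂ} (hγ : ∀ l, IsGal Z (γ l))
    (F : MvPolynomial (Fin k ⊕ (Fin k × (Fin n × Fin n))) ℂ) {x₁ : ℝ} (hx₁ : C ≤ x₁)
    (h : ∀ x : Fin k → ℝ, (∀ l, x₁ < x l) → MvPolynomial.aeval (pt x fun l => Ω * evZ Z (x l)) F = 0)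
    (s : Finset (Fin k)) : ∀ x : Fin k → ℝ, (∀ l, x₁ < x l) →
      MvPolynomial.aeval (pt x fun l => Ω * ((if l ∈ s then γ l else 1) * evZ Z (x l))) F = 0 := by
  classical
  induction s using Finset.induction_on with
  | empty =>
    intro x hx
    simp only [Finset.notMem_empty, if_false, Matrix.one_mul]
    exact h x hx
  | insert j s hj ih =>
    intro x hx
    -- the polynomial in the variable with the index `j`
    let sub : Fin k ⊕ (Fin k × (Fin n × Fin n)) → MvPolynomial (Option (Fin n × Fin n)) ℂ :=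
      Sum.elim (fun l => if l = j then MvPolynomial.X none else MvPolynomial.C ((1 / x l : ℝ) : ℂ))
        fun q => if q.1 = j then ∑ i, MvPolynomial.C (Ω q.2.1 i) * MvPolynomial.X (some (i, q.2.2))
          else MvPolynomial.C ((Ω * ((if q.1 ∈ s then γ q.1 else 1) * evZ Z (x q.1))) q.2.1 q.2.2)
    have hsub : ∀ (y : ℝ) (Y : Matrix (Fin n) (Fin n) ℂ),
        MvPolynomial.aeval (vr ((1 / y : ℝ) : ℂ) Y) (MvPolynomial.aeval sub F) =
          MvPolynomial.aeval (pt (Function.update x j y) fun l => if l = j then Ω * Y else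
            Ω * ((if l ∈ s then γ l else 1) * evZ Z (x l))) F := by
      intro y Y
      rw [← AlgHom.comp_apply, MvPolynomial.comp_aeval]
      congr 2
      funext o
      rcases o with l | ⟨l, a, b⟩
      · show MvPolynomial.aeval _ (if l = j then MvPolynomial.X none else MvPolynomial.C ((1 / x l : ℝ) : ℂ)) =
          ((1 / (Function.update x j y l) : ℝ) : ℂ)
        by_cases hl : l = j
        · subst hl
          rw [if_pos rfl, MvPolynomial.aeval_X, Function.update_self]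
          rfl
        · rw [if_neg hl, MvPolynomial.aeval_C, Function.update_of_ne hl]
          rfl
      · show MvPolynomial.aeval _ (if l = j then ∑ i, MvPolynomial.C (Ω a i) * MvPolynomial.X (some (i, b))
          else MvPolynomial.C ((Ω * ((if l ∈ s then γ l else 1) * evZ Z (x l))) a b)) =
          (if l = j then Ω * Y else Ω * ((if l ∈ s then γ l else 1) * evZ Z (x l))) a b
        by_cases hl : l = j
        · subst hl
          rw [if_pos rfl, if_pos rfl, map_sum, Matrix.mul_apply]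
          refine Finset.sum_congr rfl fun i _ => ?_
          rw [map_mul, MvPolynomial.aeval_C, MvPolynomial.aeval_X]
          rfl
        · rw [if_neg hl, if_neg hl, MvPolynomial.aeval_C]
          rfl
    have h1 := gal1 hC hZ (hγ j) (MvPolynomial.aeval sub F) hx₁ (fun y hy => by
      rw [hsub]
      have h2 := ih (Function.update x j y) (fun l => by
        by_cases hl : l = j
        · subst hl
          rw [Function.update_self]
          exact hy
        · rw [Function.update_of_ne hl]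
          exact hx l)
      rw [← h2]
      congr 3
      funext l
      by_cases hl : l = j
      · subst hl
        rw [if_pos rfl, if_neg hj, Matrix.one_mul, Function.update_self]
      · rw [if_neg hl, Function.update_of_ne hl]) (hx j)
    rw [hsub, Function.update_eq_self] at h1
    rw [← h1]
    congr 3
    funext l
    by_cases hl : l = j
    · subst hl
      rw [if_pos rfl, if_pos (Finset.mem_insert_self l s)]
    · rw [if_neg hl]
      have : (l ∈ insert j s) = (l ∈ s) := by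
        rw [Finset.mem_insert, eq_iff_iff]
        exact or_iff_right hl
      simp only [this]

end Pool.Agent.Q26.GP
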