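import Pool.Agent.Q26.GP.Nor

/-!
# The group of a subtorsor acts on the normaliser modulo the Lie algebra through a finite group
-/

set_option autoImplicit false
set_option linter.unusedSectionVars false

open Matrix

namespace Pool.Agent.Q26.GP

open Pool.Agent.TH127.PT Pool.Agent.Y123.ST Pool.Agent.TH119.DR

variable {B : Type} [Fintype B] [DecidableEq B] {K : Subfield ℂ} {T : Set (Matrix B B ℂ)}

theorem lf_zero_left (x : Matrix B B ℂ) : lf (0 : B × B → ℂ) x = 0 := by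
  unfold GP.lf
  simp

theorem lf_add_left (l l' : B × B → ℂ) (x : Matrix B B ℂ) : lf (l + l') x = lf l x + lf l' x := by
  unfold GP.lf
  rw [← Finset.sum_add_distrib]
  refine Finset.sum_congr rfl fun b _ => ?_
  rw [Pi.add_apply, add_mul]

theorem lf_smul_left (z : ℂ) (l : B × B → ℂ) (x : Matrix B B ℂ) : lf (z • l) x = z * lf l x := by
  unfold GP.lf
  rw [Finset.mul_sum]
  refine Finset.sum_congr rfl fun b _ => ?_
  rw [Pi.smul_apply, smul_eq_mul, mul_assoc]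

/-- the group of the subtorsor -/
def Hg (T : Set (Matrix B B ℂ)) : Subgroup (Matrix B B ℂ)ˣ where
  carrier := {u | (∀ x ∈ T, (u : Matrix B B ℂ) * x ∈ T) ∧ ∀ x ∈ T, ((u⁻¹ : (Matrix B B ℂ)ˣ) : Matrix B B ℂ) * x ∈ T}
  mul_mem' := by
    intro a b ha hb
    refine ⟨fun x hx => ?_, fun x hx => ?_⟩
    · rw [Units.val_mul, Matrix.mul_assoc]
      exact ha.1 _ (hb.1 x hx)
    · rw [_root_.mul_inv_rev, Units.val_mul, Matrix.mul_assoc]
      exact hb.2 _ (ha.2 x hx)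
  one_mem' := by
    refine ⟨fun x hx => ?_, fun x hx => ?_⟩
    · rwa [Units.val_one, Matrix.one_mul]
    · rwa [inv_one, Units.val_one, Matrix.one_mul]
  inv_mem' := by
    intro a ha
    refine ⟨ha.2, fun x hx => ?_⟩
    rw [inv_inv]
    exact ha.1 x hx

/-- conjugation -/
noncomputable def cj (u : (Matrix B B ℂ)ˣ) : (B × B → ℂ) →ₗ[ℂ] (B × B → ℂ) :=
  (ml (u : Matrix B B ℂ)).comp (mr ((u⁻¹ : (Matrix B B ℂ)ˣ) : Matrix B B ℂ))

theorem cj_apply (u : (Matrix B B ℂ)ˣ) (v : Matrix B B ℂ) :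
    cj u (fl v) = fl ((u : Matrix B B ℂ) * v * ((u⁻¹ : (Matrix B B ℂ)ˣ) : Matrix B B ℂ)) := by
  unfold cj
  rw [LinearMap.comp_apply, mr_fl, ml_fl, Matrix.mul_assoc]

theorem uinv (u : (Matrix B B ℂ)ˣ) : ((u⁻¹ : (Matrix B B ℂ)ˣ) : Matrix B B ℂ) = (u : Matrix B B ℂ)⁻¹ :=
  Matrix.coe_units_inv u

theorem ux_conj (hT : IsSubtorsor K T) {c : Matrix B B ℂ} (hc : c ∈ T) (u : (Matrix B B ℂ)ˣ) (v : Matrix B B ℂ) :
    (u : Matrix B B ℂ) * c * (c⁻¹ * v * c) * ((u : Matrix B B ℂ) * c)⁻¹ =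
      (u : Matrix B B ℂ) * v * ((u⁻¹ : (Matrix B B ℂ)ˣ) : Matrix B B ℂ) := by
  have hcc := mul_inv' hT hc
  rw [Matrix.mul_inv_rev, uinv]
  calc (u : Matrix B B ℂ) * c * (c⁻¹ * v * c) * (c⁻¹ * (u : Matrix B B ℂ)⁻¹)
      = (u : Matrix B B ℂ) * (c * c⁻¹) * v * (c * c⁻¹) * (u : Matrix B B ℂ)⁻¹ := by simp only [Matrix.mul_assoc]
    _ = _ := by rw [hcc, Matrix.mul_one, Matrix.mul_one]

theorem cj_LL (hT : IsSubtorsor K T) {c : Matrix B B ℂ} (hc : c ∈ T) {u : (Matrix B B ℂ)ˣ} (hu : u ∈ Hg T)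
    {v : B × B → ℂ} (hv : v ∈ LL T) : cj u v ∈ LL T := by
  rw [← fl_um v, cj_apply, ← ux_conj hT hc]
  have h1 := conj_mem hT hc (w := um v) (by rw [fl_um]; exact hv)
  exact conj_mem' hT (hu.1 c hc) h1

theorem cj_NL (hT : IsSubtorsor K T) {c : Matrix B B ℂ} (hc : c ∈ T) {u : (Matrix B B ℂ)ˣ} (hu : u ∈ Hg T)
    {v : B × B → ℂ} (hv : v ∈ NL T) : cj u v ∈ NL T := by
  rw [← fl_um v, cj_apply, ← ux_conj hT hc]
  have h1 := NL_conj hT hc (v := um v) (by rw [fl_um]; exact hv)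
  exact NR_conj hT (hu.1 c hc) h1

/-- the normaliser modulo the Lie algebra -/
abbrev QQ (T : Set (Matrix B B ℂ)) : Type := (NL T) ⧸ ((LL T).comap (NL T).subtype)

theorem rho_le (hT : IsSubtorsor K T) {c : Matrix B B ℂ} (hc : c ∈ T) (u : Hg T) :
    (LL T).comap (NL T).subtype ≤ ((LL T).comap (NL T).subtype).comap
      ((cj (u : (Matrix B B ℂ)ˣ)).restrict fun _ hv => cj_NL hT hc u.2 hv) :=
  fun _ hv => cj_LL hT hc u.2 hv

/-- the action -/
noncomputable def rho (hT : IsSubtorsor K T) {c : Matrix B B ℂ} (hc : c ∈ T) : Hg T →* Module.End ℂ (QQ T) where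
  toFun u := Submodule.mapQ _ _ ((cj (u : (Matrix B B ℂ)ˣ)).restrict fun _ hv => cj_NL hT hc u.2 hv)
    (rho_le hT hc u)
  map_one' := by
    refine Submodule.linearMap_qext _ (LinearMap.ext fun v => ?_)
    rw [LinearMap.comp_apply, Submodule.mkQ_apply, Submodule.mapQ_apply, LinearMap.comp_apply, Submodule.mkQ_apply]
    rw [Module.End.one_apply]
    congr 1
    apply Subtype.ext
    show cj 1 (v : B × B → ℂ) = v
    rw [← fl_um (v : B × B → ℂ), cj_apply, inv_one, Units.val_one, Matrix.one_mul, Matrix.mul_one]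
  map_mul' u w := by
    refine Submodule.linearMap_qext _ (LinearMap.ext fun v => ?_)
    rw [LinearMap.comp_apply, Submodule.mkQ_apply, Submodule.mapQ_apply, LinearMap.comp_apply, Submodule.mkQ_apply]
    rw [Module.End.mul_apply, Submodule.mapQ_apply, Submodule.mapQ_apply]
    congr 1
    apply Subtype.ext
    show cj ((u : (Matrix B B ℂ)ˣ) * (w : (Matrix B B ℂ)ˣ)) (v : B × B → ℂ) =
      cj (u : (Matrix B B ℂ)ˣ) (cj (w : (Matrix B B ℂ)ˣ) (v : B × B → ℂ))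
    rw [← fl_um (v : B × B → ℂ), cj_apply, cj_apply, cj_apply, _root_.mul_inv_rev, Units.val_mul, Units.val_mul]
    simp only [Matrix.mul_assoc]

theorem rho_mk (hT : IsSubtorsor K T) {c : Matrix B B ℂ} (hc : c ∈ T) (u : Hg T) (v : NL T) :
    rho hT hc u (Submodule.Quotient.mk v) =
      Submodule.Quotient.mk ⟨cj (u : (Matrix B B ℂ)ˣ) v, cj_NL hT hc u.2 v.2⟩ := rfl

/-- the action is through a finite group -/
theorem rho_finite (hT : IsSubtorsor K T) (hK : ∀ x ∈ K, IsAlgebraic ℚ x) {c : Matrix B B ℂ} (hc : c ∈ T) :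
    (Set.range (rho hT hc)).Finite := by
  classical
  -- finite sets over `K`
  obtain ⟨S, hS, hS2⟩ := (Submodule.fg_span_iff_fg_span_finset_subset (R := ℂ)
    {w | w ∈ NR T ∧ ∀ a, w a ∈ K}).1 (IsNoetherian.noetherian _)
  obtain ⟨L, hL, hL2⟩ := (Submodule.fg_span_iff_fg_span_finset_subset (R := ℂ)
    {w | w ∈ Ann T ∧ ∀ a, w a ∈ K}).1 (IsNoetherian.noetherian _)
  let Th : Hg T → (S × L → ℂ) := fun u p =>
    lf p.2.1 ((u : (Matrix B B ℂ)ˣ) * c * um p.1.1 * (((u : (Matrix B B ℂ)ˣ) : Matrix B B ℂ) * c)⁻¹)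
  have hTh : (Set.range Th).Finite := by
    have h1 : (Set.univ.pi fun p : S × L => {z | ∃ x ∈ T, z = lf p.2.1 (x * um p.1.1 * x⁻¹)}).Finite := by
      refine Set.Finite.pi fun p => ?_
      exact fin_conj (v := um p.1.1) hT hK (by rw [fl_um]; exact (hS p.1.2).1) (fun a b => (hS p.1.2).2 (a, b))
        (hL p.2.2).1 (hL p.2.2).2
    refine h1.subset ?_
    rintro _ ⟨u, rfl⟩ p _
    exact ⟨_, u.2.1 c hc, rfl⟩
  have hfac : ∀ u u' : Hg T, Th u = Th u' → rho hT hc u = rho hT hc u' := by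
    intro u u' huu
    refine Submodule.linearMap_qext _ (LinearMap.ext fun v => ?_)
    rw [LinearMap.comp_apply, LinearMap.comp_apply, Submodule.mkQ_apply, rho_mk, rho_mk, Submodule.Quotient.eq]
    show cj (u : (Matrix B B ℂ)ˣ) v - cj (u' : (Matrix B B ℂ)ˣ) v ∈ LL T
    have hv := NL_conj hT hc (v := um (v : B × B → ℂ)) (by rw [fl_um]; exact v.2)
    obtain ⟨w, hw⟩ : ∃ w, w = c⁻¹ * um (v : B × B → ℂ) * c := ⟨_, rfl⟩
    have hcu : ∀ y : Hg T, cj (y : (Matrix B B ℂ)ˣ) v = fl (((y : (Matrix B B ℂ)ˣ) : Matrix B B ℂ) * c * w *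
        (((y : (Matrix B B ℂ)ˣ) : Matrix B B ℂ) * c)⁻¹) := by
      intro y
      rw [hw, ux_conj hT hc, ← cj_apply, fl_um]
    rw [hcu u, hcu u']
    rw [← hw] at hv
    refine mem_LL_of_ann hT fun l hl hlK => ?_
    have key : ∀ a ∈ Submodule.span ℂ {w | w ∈ Ann T ∧ ∀ a, w a ∈ K}, ∀ b ∈ Submodule.span ℂ
        {w | w ∈ NR T ∧ ∀ a, w a ∈ K},
        lf a ((u : (Matrix B B ℂ)ˣ) * c * um b * (((u : (Matrix B B ℂ)ˣ) : Matrix B B ℂ) * c)⁻¹) =
        lf a ((u' : (Matrix B B ℂ)ˣ) * c * um b * (((u' : (Matrix B B ℂ)ˣ) : Matrix B B ℂ) * c)⁻¹) := by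
      intro a ha b hb
      rw [hL2] at ha
      rw [hS2] at hb
      induction hb using Submodule.span_induction with
      | mem b hb =>
        induction ha using Submodule.span_induction with
        | mem a ha => exact congrFun huu (⟨b, hb⟩, ⟨a, ha⟩)
        | zero => rw [lf_zero_left, lf_zero_left]
        | add a a' _ _ ha ha' => rw [lf_add_left, lf_add_left, ha, ha']
        | smul z a _ ha => rw [lf_smul_left, lf_smul_left, ha]
      | zero => rw [um_zero, Matrix.mul_zero, Matrix.mul_zero, Matrix.zero_mul, Matrix.zero_mul]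
      | add b b' _ _ hb hb' =>
        rw [um_add, Matrix.mul_add, Matrix.mul_add, Matrix.add_mul, Matrix.add_mul, lf_add, lf_add, hb, hb']
      | smul z b _ hb =>
        rw [um_smul, Matrix.mul_smul, Matrix.mul_smul, Matrix.smul_mul, Matrix.smul_mul, lf_smul, lf_smul, hb]
    have h3 := key l (Submodule.subset_span ⟨hl, hlK⟩) (fl w) (NR_def hT hv)
    rw [um_fl] at h3
    have h4 := lf_sub l ((u : (Matrix B B ℂ)ˣ) * c * w * (((u : (Matrix B B ℂ)ˣ) : Matrix B B ℂ) * c)⁻¹)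
      ((u' : (Matrix B B ℂ)ˣ) * c * w * (((u' : (Matrix B B ℂ)ˣ) : Matrix B B ℂ) * c)⁻¹)
    rw [h3, sub_self] at h4
    exact h4
  refine (hTh.image fun t => if h : ∃ u, Th u = t then rho hT hc h.choose else 1).subset ?_
  rintro _ ⟨u, rfl⟩
  refine ⟨Th u, ⟨u, rfl⟩, ?_⟩
  have hex : ∃ u', Th u' = Th u := ⟨u, rfl⟩
  simp only
  rw [dif_pos hex]
  exact hfac _ _ hex.choose_spec

theorem finrank_QQ (T : Set (Matrix B B ℂ)) : Module.finrank ℂ (QQ T) ≤ Fintype.card (B × B) := by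
  refine (Submodule.finrank_quotient_le _).trans ?_
  refine (Submodule.finrank_le _).trans ?_
  rw [Module.finrank_fintype_fun_eq_card]

/-- bounded powers commute -/
theorem exists_M (B : Type) [Fintype B] [DecidableEq B] : ∃ M : ℕ, 0 < M ∧ ∀ (K : Subfield ℂ)
    (T : Set (Matrix B B ℂ)) (hT : IsSubtorsor K T), (∀ x ∈ K, IsAlgebraic ℚ x) → ∀ (c : Matrix B B ℂ) (hc : c ∈ T)
    (u w : Hg T), Commute (rho hT hc u ^ M) (rho hT hc w ^ M) := by
  classical
  choose J hJ using fun n => Jor.jordan n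
  refine ⟨∏ r ∈ Finset.range (Fintype.card (B × B) + 1), (J r).factorial, Finset.prod_pos fun r _ =>
    Nat.factorial_pos _, ?_⟩
  intro K T hT hK c hc u w
  have hr := finrank_QQ T
  obtain ⟨r, hr'⟩ : ∃ r, r = Module.finrank ℂ (QQ T) := ⟨_, rfl⟩
  let b := Module.finBasisOfFinrankEq ℂ (QQ T) hr'.symm
  let f : Module.End ℂ (QQ T) ≃ₐ[ℂ] Matrix (Fin r) (Fin r) ℂ := LinearMap.toMatrixAlgEquiv b
  have h1 := hJ r (Set.range fun u => f (rho hT hc u)) (by
      have h2 := (rho_finite hT hK hc).image f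
      refine h2.subset ?_
      rintro _ ⟨u, rfl⟩
      exact ⟨_, ⟨u, rfl⟩, rfl⟩) ⟨1, by simp only [map_one]⟩
    (by
      rintro _ ⟨u, rfl⟩ _ ⟨w, rfl⟩
      exact ⟨u * w, by simp only [map_mul]⟩)
    (by
      rintro _ ⟨u, rfl⟩
      refine (Matrix.isUnit_iff_isUnit_det _).1 ?_
      exact ((Group.isUnit u).map (rho hT hc)).map f)
    (by
      rintro _ ⟨u, rfl⟩
      refine ⟨u⁻¹, ?_⟩
      simp only
      symm
      apply Matrix.inv_eq_right_inv
      rw [← map_mul, ← map_mul, mul_inv_cancel, map_one, map_one]) _ ⟨u, rfl⟩ _ ⟨w, rfl⟩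
  obtain ⟨k, l, ⟨hk1, hk⟩, ⟨hl1, hl⟩, hkl⟩ := h1
  simp only at hkl
  have h2 : Commute (rho hT hc u ^ k) (rho hT hc w ^ l) := by
    apply f.injective
    rw [map_mul, map_mul, map_pow, map_pow]
    exact hkl
  have hdiv : ∀ k, 1 ≤ k → k ≤ J r → k ∣ ∏ r ∈ Finset.range (Fintype.card (B × B) + 1), (J r).factorial := by
    intro k hk1 hk
    refine (Nat.dvd_factorial hk1 hk).trans (Finset.dvd_prod_of_mem _ ?_)
    rw [Finset.mem_range]
    omega
  obtain ⟨a, ha⟩ := hdiv k hk1 hk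
  obtain ⟨a', ha'⟩ := hdiv l hl1 hl
  have h3 : rho hT hc u ^ (∏ r ∈ Finset.range (Fintype.card (B × B) + 1), (J r).factorial) =
      (rho hT hc u ^ k) ^ a := by rw [ha, pow_mul]
  have h4 : rho hT hc w ^ (∏ r ∈ Finset.range (Fintype.card (B × B) + 1), (J r).factorial) =
      (rho hT hc w ^ l) ^ a' := by rw [ha', pow_mul]
  rw [h3, h4]
  exact h2.pow_pow a a'

end Pool.Agent.Q26.GP
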