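import Pool.Agent.Q26.GP.Pf

/-!
# The normaliser of the Lie algebra of a subtorsor, modulo the Lie algebra: algebraicity and finiteness
-/

set_option autoImplicit false
set_option linter.unusedSectionVars false

open Matrix

namespace Pool.Agent.Q26.GP

open Pool.Agent.TH127.PT Pool.Agent.Y123.ST Pool.Agent.TH119.DR

variable {B : Type} [Fintype B] [DecidableEq B] {K : Subfield ℂ} {T : Set (Matrix B B ℂ)}

/-- the annihilator of the left Lie algebra -/
def Ann (T : Set (Matrix B B ℂ)) : Submodule ℂ (B × B → ℂ) where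
  carrier := {l | ∀ w ∈ LL T, ∑ b, l b * w b = 0}
  zero_mem' := by
    intro w _
    simp
  add_mem' := by
    intro a b ha hb w hw
    simp only [Pi.add_apply, add_mul, Finset.sum_add_distrib]
    rw [ha w hw, hb w hw, add_zero]
  smul_mem' := by
    intro z a ha w hw
    simp only [Pi.smul_apply, smul_eq_mul, mul_assoc]
    rw [← Finset.mul_sum, ha w hw, mul_zero]

theorem Ann_def (hT : IsSubtorsor K T) : DefOver K (Ann T) := by
  refine Pool.Agent.TH119.MX.defOver_of_aut (Ann T) fun σ hσ l hl w hw => ?_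
  have h1 := hl _ (LL_aut hT σ.symm (symm_fix hσ) w hw)
  have h2 := congrArg σ h1
  rw [map_zero, map_sum] at h2
  rw [← h2]
  refine Finset.sum_congr rfl fun b _ => ?_
  rw [map_mul, RingEquiv.apply_symm_apply]

/-- an element which is annihilated by the functionals over `K` is in the Lie algebra -/
theorem mem_LL_of_ann (hT : IsSubtorsor K T) {w : B × B → ℂ}
    (h : ∀ l ∈ Ann T, (∀ b, l b ∈ K) → ∑ b, l b * w b = 0) : w ∈ LL T := by
  by_contra hw
  obtain ⟨f, hf, hf2⟩ := Submodule.exists_le_ker_of_notMem hw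
  have hfv : ∀ v : B × B → ℂ, f v = ∑ b, f (Pi.single b 1) * v b := by
    intro v
    conv_lhs => rw [LinearMap.pi_apply_eq_sum_univ f v]
    refine Finset.sum_congr rfl fun b _ => ?_
    rw [smul_eq_mul, mul_comm]
    congr 2
    funext j
    by_cases hj : b = j
    · subst hj
      simp
    · simp [hj, Pi.single_apply, Ne.symm hj]
  have hl : (fun b => f (Pi.single b 1)) ∈ Ann T := by
    intro v hv
    have := hf2 hv
    rw [LinearMap.mem_ker, hfv] at this
    exact this
  have key : ∀ l ∈ Submodule.span ℂ {l | l ∈ Ann T ∧ ∀ b, l b ∈ K}, ∑ b, l b * w b = 0 := by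
    intro l hl
    induction hl using Submodule.span_induction with
    | mem l hl => exact h l hl.1 hl.2
    | zero => simp
    | add a b _ _ ha hb =>
      simp only [Pi.add_apply, add_mul, Finset.sum_add_distrib]
      rw [ha, hb, add_zero]
    | smul z a _ ha =>
      simp only [Pi.smul_apply, smul_eq_mul, mul_assoc]
      rw [← Finset.mul_sum, ha, mul_zero]
  apply hf
  rw [hfv]
  exact key _ (Ann_def hT hl)

/-- the normaliser of the left Lie algebra -/
def NL (T : Set (Matrix B B ℂ)) : Submodule ℂ (B × B → ℂ) where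
  carrier := {v | ∀ w ∈ LL T, fl (um v * um w - um w * um v) ∈ LL T}
  zero_mem' := by
    intro w _
    rw [um_zero, Matrix.zero_mul, Matrix.mul_zero, sub_zero, fl_zero]
    exact (LL T).zero_mem
  add_mem' := by
    intro a b ha hb w hw
    have h1 : fl (um (a + b) * um w - um w * um (a + b)) =
        fl (um a * um w - um w * um a) + fl (um b * um w - um w * um b) := by
      rw [um_add, ← fl_add]
      congr 1
      rw [Matrix.add_mul, Matrix.mul_add]
      abel
    rw [h1]
    exact (LL T).add_mem (ha w hw) (hb w hw)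
  smul_mem' := by
    intro z a ha w hw
    have h1 : fl (um (z • a) * um w - um w * um (z • a)) = z • fl (um a * um w - um w * um a) := by
      rw [um_smul, ← fl_smul]
      congr 1
      rw [Matrix.smul_mul, Matrix.mul_smul, smul_sub]
    rw [h1]
    exact (LL T).smul_mem z (ha w hw)

/-- the normaliser of the right Lie algebra -/
def NR (T : Set (Matrix B B ℂ)) : Submodule ℂ (B × B → ℂ) where
  carrier := {v | ∀ w ∈ RR T, fl (um v * um w - um w * um v) ∈ RR T}
  zero_mem' := by
    intro w _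
    rw [um_zero, Matrix.zero_mul, Matrix.mul_zero, sub_zero, fl_zero]
    exact (RR T).zero_mem
  add_mem' := by
    intro a b ha hb w hw
    have h1 : fl (um (a + b) * um w - um w * um (a + b)) =
        fl (um a * um w - um w * um a) + fl (um b * um w - um w * um b) := by
      rw [um_add, ← fl_add]
      congr 1
      rw [Matrix.add_mul, Matrix.mul_add]
      abel
    rw [h1]
    exact (RR T).add_mem (ha w hw) (hb w hw)
  smul_mem' := by
    intro z a ha w hw
    have h1 : fl (um (z • a) * um w - um w * um (z • a)) = z • fl (um a * um w - um w * um a) := by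
      rw [um_smul, ← fl_smul]
      congr 1
      rw [Matrix.smul_mul, Matrix.mul_smul, smul_sub]
    rw [h1]
    exact (RR T).smul_mem z (ha w hw)

theorem fl_map' (σ : ℂ ≃+* ℂ) (x : Matrix B B ℂ) : (fun b => σ (fl x b)) = fl (x.map σ) := rfl

theorem um_map' (σ : ℂ ≃+* ℂ) (v : B × B → ℂ) : um (fun b => σ (v b)) = (um v).map σ := rfl

theorem NR_def (hT : IsSubtorsor K T) : DefOver K (NR T) := by
  refine Pool.Agent.TH119.MX.defOver_of_aut (NR T) fun σ hσ v hv w hw => ?_
  have h1 := hv _ (RR_aut hT σ.symm (symm_fix hσ) w hw)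
  have h2 := RR_aut hT σ hσ _ h1
  rw [fl_map', Matrix.map_sub _ (map_sub σ), Matrix.map_mul, Matrix.map_mul, um_map', Matrix.map_map] at h2
  rw [um_map']
  have h3 : ((um w).map (⇑σ ∘ ⇑σ.symm)) = um w := by
    ext i j
    simp
  rw [h3] at h2
  exact h2

/-- conjugation by points of the torsor -/
theorem NR_conj (hT : IsSubtorsor K T) {x v : Matrix B B ℂ} (hx : x ∈ T) (hv : fl v ∈ NR T) :
    fl (x * v * x⁻¹) ∈ NL T := by
  intro w hw
  have h1 : fl (x⁻¹ * um w * x) ∈ RR T := conj_mem hT hx (by rw [fl_um]; exact hw)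
  have h2 := hv _ h1
  rw [um_fl, um_fl] at h2
  have h3 := conj_mem' hT hx h2
  rw [um_fl]
  have hxx := mul_inv' hT hx
  convert h3 using 2
  rw [Matrix.mul_sub, Matrix.sub_mul]
  congr 1
  · calc x * v * x⁻¹ * um w = x * v * x⁻¹ * um w * (x * x⁻¹) := by rw [hxx, Matrix.mul_one]
      _ = x * (v * (x⁻¹ * um w * x)) * x⁻¹ := by simp only [Matrix.mul_assoc]
  · calc um w * (x * v * x⁻¹) = (x * x⁻¹) * um w * (x * v * x⁻¹) := by rw [hxx, Matrix.one_mul]
      _ = x * (x⁻¹ * um w * x * v) * x⁻¹ := by simp only [Matrix.mul_assoc]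

theorem NL_conj (hT : IsSubtorsor K T) {x v : Matrix B B ℂ} (hx : x ∈ T) (hv : fl v ∈ NL T) :
    fl (x⁻¹ * v * x) ∈ NR T := by
  intro w hw
  have h1 : fl (x * um w * x⁻¹) ∈ LL T := conj_mem' hT hx (by rw [fl_um]; exact hw)
  have h2 := hv _ h1
  rw [um_fl, um_fl] at h2
  have h3 := conj_mem hT hx h2
  rw [um_fl]
  have hxx := inv_mul' hT hx
  convert h3 using 2
  rw [Matrix.mul_sub, Matrix.sub_mul]
  congr 1
  · calc x⁻¹ * v * x * um w = x⁻¹ * v * x * um w * (x⁻¹ * x) := by rw [hxx, Matrix.mul_one]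
      _ = x⁻¹ * (v * (x * um w * x⁻¹)) * x := by simp only [Matrix.mul_assoc]
  · calc um w * (x⁻¹ * v * x) = (x⁻¹ * x) * um w * (x⁻¹ * v * x) := by rw [hxx, Matrix.one_mul]
      _ = x⁻¹ * (x * um w * x⁻¹ * v) * x := by simp only [Matrix.mul_assoc]

/-- the values are algebraic -/
theorem alg_val (hT : IsSubtorsor K T) (hK : ∀ x ∈ K, IsAlgebraic ℚ x) {x v : Matrix B B ℂ} (hx : x ∈ T)
    (hv : fl v ∈ NR T) (hvK : ∀ a b, v a b ∈ K) {l : B × B → ℂ} (hl : l ∈ Ann T) (hlK : ∀ b, l b ∈ K) :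
    IsAlgebraic ℚ (lf l (x * v * x⁻¹)) := by
  by_contra htr
  obtain ⟨D, hD⟩ := exists_der_ne hK htr
  apply hD
  obtain ⟨u, hu⟩ : ∃ u, u = x * v * x⁻¹ := ⟨_, rfl⟩
  rw [← hu]
  have hxx := mul_inv' hT hx
  have hxx' := inv_mul' hT hx
  -- the derivative of `u`
  have hDmul : ∀ y z : Matrix B B ℂ, (y * z).map D = y.map D * z + y * z.map D := by
    intro y z
    ext i j
    simp only [Matrix.map_apply, Matrix.mul_apply, Matrix.add_apply, map_sum, Derivation.leibniz, smul_eq_mul]
    rw [← Finset.sum_add_distrib]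
    refine Finset.sum_congr rfl fun k _ => ?_
    ring
  have hDv : v.map D = 0 := by
    ext i j
    rw [Matrix.map_apply, Matrix.zero_apply]
    exact D.map_algebraMap (⟨v i j, hvK i j⟩ : K)
  have h1 : u * x = x * v := by
    rw [hu, Matrix.mul_assoc, hxx', Matrix.mul_one]
  have h2 : u.map D * x + u * x.map D = x.map D * v := by
    have : (u * x).map D = (x * v).map D := congrArg (fun y : Matrix B B ℂ => y.map D) h1
    rw [hDmul, hDmul, hDv, Matrix.mul_zero, add_zero] at this
    exact this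
  have h3 : u.map D = (x.map D * x⁻¹) * u - u * (x.map D * x⁻¹) := by
    have h4 : u.map D * x = x.map D * v - u * x.map D := by
      rw [← h2]
      abel
    calc u.map D = u.map D * x * x⁻¹ := by rw [Matrix.mul_assoc, hxx, Matrix.mul_one]
      _ = (x.map D * v - u * x.map D) * x⁻¹ := by rw [h4]
      _ = x.map D * (x⁻¹ * x) * v * x⁻¹ - u * (x.map D * x⁻¹) := by
        rw [Matrix.sub_mul, hxx', Matrix.mul_one]
        simp only [Matrix.mul_assoc]
      _ = _ := by
        rw [hu]
        simp only [Matrix.mul_assoc]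
  have h4 : D (lf l u) = lf l (u.map D) := by
    unfold GP.lf
    rw [map_sum]
    refine Finset.sum_congr rfl fun b _ => ?_
    rw [D.leibniz, smul_eq_mul, smul_eq_mul]
    have h5 : D (l b) = 0 := D.map_algebraMap (⟨l b, hlK b⟩ : K)
    rw [h5, mul_zero, add_zero]
    rfl
  rw [h4, h3]
  have h5 := NR_conj hT hx hv _ (logder_mem hT D hx)
  rw [um_fl, um_fl] at h5
  have h6 := hl _ h5
  have h7 : (x.map D * x⁻¹) * u - u * (x.map D * x⁻¹) = (-1 : ℂ) • (x * v * x⁻¹ * (x.map D * x⁻¹) -
      x.map D * x⁻¹ * (x * v * x⁻¹)) := by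
    rw [← hu, neg_smul, one_smul, neg_sub]
  rw [h7, lf_smul]
  unfold GP.lf
  rw [h6, mul_zero]

/-- a quotient of a polynomial by the determinant with algebraic values has finitely many values -/
theorem fin_val (hT : IsSubtorsor K T) (P : MvPolynomial (B × B) ℂ)
    (h : ∀ x ∈ T, IsAlgebraic ℚ (MvPolynomial.eval (fl x) P / x.det)) :
    {z | ∃ x ∈ T, z = MvPolynomial.eval (fl x) P / x.det}.Finite := by
  classical
  have hfin : (VI T).minimalPrimes.Finite := Ideal.finite_minimalPrimes_of_isNoetherianRing _ _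
  have hcount : Countable {α : ℂ // IsAlgebraic ℚ α} := (Algebraic.countable ℚ ℂ).to_subtype
  have hdet : ∀ x ∈ T, x.det ≠ 0 := fun x hx =>
    ((Matrix.isUnit_iff_isUnit_det x).1 (hT.isUnit x hx)).ne_zero
  have key : ∀ p ∈ (VI T).minimalPrimes, ∃ α : ℂ, P - MvPolynomial.C α * dt B ∈ p := by
    intro p hp
    by_contra hcon
    push Not at hcon
    obtain ⟨x, hx, hx2⟩ := exists_pt hT hp (fun α : {α : ℂ // IsAlgebraic ℚ α} =>
      P - MvPolynomial.C α.1 * dt B) fun α => hcon α.1
    have h1 := hx2 ⟨_, h x hx⟩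
    apply h1
    rw [map_sub, map_mul, MvPolynomial.eval_C, eval_dt, div_mul_cancel₀ _ (hdet x hx), sub_self]
  choose! α hα using key
  refine (hfin.image α).subset ?_
  rintro _ ⟨x, hx, rfl⟩
  have hker : VI T ≤ RingHom.ker (MvPolynomial.eval (fl x) : MvPolynomial (B × B) ℂ →+* ℂ) := by
    intro p hp
    exact hp _ hx
  have hkp : (RingHom.ker (MvPolynomial.eval (fl x) : MvPolynomial (B × B) ℂ →+* ℂ)).IsPrime :=
    RingHom.ker_isPrime _
  obtain ⟨p, hp, hpk⟩ := Ideal.exists_minimalPrimes_le hker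
  refine ⟨p, hp, ?_⟩
  have h1 := hpk (hα p hp)
  rw [RingHom.mem_ker, map_sub, map_mul, MvPolynomial.eval_C, eval_dt, sub_eq_zero] at h1
  rw [h1, mul_div_cancel_right₀ _ (hdet x hx)]

theorem adj_inv {x : Matrix B B ℂ} : x⁻¹ = x.det⁻¹ • x.adjugate := by
  rw [Matrix.inv_def, Ring.inverse_eq_inv']

/-- finitely many values of the functionals on the conjugates -/
theorem fin_conj (hT : IsSubtorsor K T) (hK : ∀ x ∈ K, IsAlgebraic ℚ x) {v : Matrix B B ℂ}
    (hv : fl v ∈ NR T) (hvK : ∀ a b, v a b ∈ K) {l : B × B → ℂ} (hl : l ∈ Ann T) (hlK : ∀ b, l b ∈ K) :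
    {z | ∃ x ∈ T, z = lf l (x * v * x⁻¹)}.Finite := by
  obtain ⟨P, -, hP⟩ := ((PMn.id.mul (PMn.const v)).mul PMn.adj).lf (B := B) l
  have h1 : ∀ x : Matrix B B ℂ, lf l (x * v * x⁻¹) = MvPolynomial.eval (fl x) P / x.det := by
    intro x
    rw [← hP, adj_inv, Matrix.mul_smul, lf_smul, mul_comm, div_eq_mul_inv]
  have h2 := fin_val hT P (fun x hx => by rw [← h1]; exact alg_val hT hK hx hv hvK hl hlK)
  refine h2.subset ?_
  rintro _ ⟨x, hx, rfl⟩
  exact ⟨x, hx, h1 x⟩

end Pool.Agent.Q26.GP
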