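import Pool.Agent.Y123.ST.Fc
import Pool.Agent.Y123.ST.Jor2
import Pool.Agent.Y123.ST.Exp

/-!
# Polynomial functions of matrices, and the transfer of relations of bounded degree
-/

set_option autoImplicit false
set_option linter.unusedSectionVars false

open Matrix

namespace Pool.Agent.Q26.GP

open Pool.Agent.TH127.PT Pool.Agent.Y123.ST Pool.Agent.TH119.DR

variable {B : Type} [Fintype B] [DecidableEq B] {K : Subfield ℂ} {T : Set (Matrix B B ℂ)}

/-- polynomial functions of degree at most `d` -/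
def PFn (d : ℕ) (F : Matrix B B ℂ → ℂ) : Prop :=
  ∃ P : MvPolynomial (B × B) ℂ, P.totalDegree ≤ d ∧ ∀ x, F x = MvPolynomial.eval (fl x) P

theorem PFn.const (a : ℂ) : PFn (B := B) 0 (fun _ => a) :=
  ⟨MvPolynomial.C a, by rw [MvPolynomial.totalDegree_C], fun x => by rw [MvPolynomial.eval_C]⟩

theorem PFn.coord (a b : B) : PFn (B := B) 1 (fun x => x a b) :=
  ⟨MvPolynomial.X (a, b), by rw [MvPolynomial.totalDegree_X], fun x => by rw [MvPolynomial.eval_X]; rfl⟩

theorem PFn.mono {d e : ℕ} (h : d ≤ e) {F : Matrix B B ℂ → ℂ} (hF : PFn d F) : PFn e F := by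
  obtain ⟨P, h1, h2⟩ := hF
  exact ⟨P, h1.trans h, h2⟩

theorem PFn.mul {d e : ℕ} {F G : Matrix B B ℂ → ℂ} (hF : PFn d F) (hG : PFn e G) :
    PFn (d + e) (fun x => F x * G x) := by
  obtain ⟨P, h1, h2⟩ := hF
  obtain ⟨P', h1', h2'⟩ := hG
  refine ⟨P * P', (MvPolynomial.totalDegree_mul _ _).trans (add_le_add h1 h1'), fun x => ?_⟩
  rw [map_mul, ← h2, ← h2']

theorem PFn.sub {d : ℕ} {F G : Matrix B B ℂ → ℂ} (hF : PFn d F) (hG : PFn d G) :
    PFn d (fun x => F x - G x) := by
  obtain ⟨P, h1, h2⟩ := hF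
  obtain ⟨P', h1', h2'⟩ := hG
  refine ⟨P - P', (MvPolynomial.totalDegree_sub _ _).trans (max_le h1 h1'), fun x => ?_⟩
  rw [map_sub, ← h2, ← h2']

theorem PFn.add {d : ℕ} {F G : Matrix B B ℂ → ℂ} (hF : PFn d F) (hG : PFn d G) :
    PFn d (fun x => F x + G x) := by
  obtain ⟨P, h1, h2⟩ := hF
  obtain ⟨P', h1', h2'⟩ := hG
  refine ⟨P + P', (MvPolynomial.totalDegree_add _ _).trans (max_le h1 h1'), fun x => ?_⟩
  rw [map_add, ← h2, ← h2']

theorem PFn.sum {d : ℕ} {ι : Type*} (s : Finset ι) {F : ι → Matrix B B ℂ → ℂ}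
    (hF : ∀ i ∈ s, PFn d (F i)) : PFn d (fun x => ∑ i ∈ s, F i x) := by
  classical
  induction s using Finset.induction_on with
  | empty =>
    simp only [Finset.sum_empty]
    exact (PFn.const 0).mono (Nat.zero_le _)
  | insert a s ha ih =>
    simp only [Finset.sum_insert ha]
    exact (hF a (Finset.mem_insert_self a s)).add (ih fun i hi => hF i (Finset.mem_insert_of_mem hi))

/-- matrices of polynomial functions -/
def PMn (d : ℕ) (M : Matrix B B ℂ → Matrix B B ℂ) : Prop := ∀ a b, PFn d (fun x => M x a b)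

theorem PMn.const (A : Matrix B B ℂ) : PMn (B := B) 0 (fun _ => A) := fun _ _ => PFn.const _

theorem PMn.id : PMn (B := B) 1 (fun x => x) := fun a b => PFn.coord a b

theorem PMn.mono {d e : ℕ} (h : d ≤ e) {M : Matrix B B ℂ → Matrix B B ℂ} (hM : PMn d M) : PMn e M :=
  fun a b => (hM a b).mono h

theorem PMn.mul {d e : ℕ} {M M' : Matrix B B ℂ → Matrix B B ℂ} (h : PMn d M) (h' : PMn e M') :
    PMn (d + e) (fun x => M x * M' x) := by
  intro a b
  simp only [Matrix.mul_apply]
  exact PFn.sum _ fun k _ => (h a k).mul (h' k b)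

theorem PMn.sub {d : ℕ} {M M' : Matrix B B ℂ → Matrix B B ℂ} (h : PMn d M) (h' : PMn d M') :
    PMn d (fun x => M x - M' x) := by
  intro a b
  simp only [Matrix.sub_apply]
  exact (h a b).sub (h' a b)

theorem PMn.pow {d : ℕ} {M : Matrix B B ℂ → Matrix B B ℂ} (h : PMn d M) (k : ℕ) :
    PMn (k * d) (fun x => M x ^ k) := by
  induction k with
  | zero =>
    simp only [pow_zero, zero_mul]
    exact PMn.const 1
  | succ k ih =>
    have h1 := ih.mul h
    have h2 : k * d + d = (k + 1) * d := by ring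
    rw [h2] at h1
    simp only [pow_succ]
    exact h1

/-- the adjugate of the generic matrix -/
noncomputable def gadj (B : Type) [Fintype B] [DecidableEq B] : Matrix B B (MvPolynomial (B × B) ℂ) :=
  (Matrix.of fun i j : B => (MvPolynomial.X (i, j) : MvPolynomial (B × B) ℂ)).adjugate

/-- a bound for its degree -/
noncomputable def adeg (B : Type) [Fintype B] [DecidableEq B] : ℕ :=
  Finset.univ.sup fun p : B × B => (gadj B p.1 p.2).totalDegree

theorem PMn.adj : PMn (B := B) (adeg B) (fun x => x.adjugate) := by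
  intro a b
  refine ⟨gadj B a b, Finset.le_sup (f := fun p : B × B => (gadj B p.1 p.2).totalDegree) (Finset.mem_univ (a, b)),
    fun x => ?_⟩
  unfold gadj
  have h1 := RingHom.map_adjugate (MvPolynomial.eval (fl x))
    (Matrix.of fun i j : B => (MvPolynomial.X (i, j) : MvPolynomial (B × B) ℂ))
  have h2 : (MvPolynomial.eval (fl x)).mapMatrix
      (Matrix.of fun i j : B => (MvPolynomial.X (i, j) : MvPolynomial (B × B) ℂ)) = x := by
    ext i j
    simp [fl]
  rw [h2] at h1
  exact (congrFun (congrFun h1 a) b).symm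

/-- linear functionals -/
noncomputable def lf (l : B × B → ℂ) (x : Matrix B B ℂ) : ℂ := ∑ b, l b * fl x b

theorem lf_add (l : B × B → ℂ) (x y : Matrix B B ℂ) : lf l (x + y) = lf l x + lf l y := by
  unfold lf
  rw [fl_add, ← Finset.sum_add_distrib]
  refine Finset.sum_congr rfl fun b _ => ?_
  rw [Pi.add_apply, mul_add]

theorem lf_sub (l : B × B → ℂ) (x y : Matrix B B ℂ) : lf l (x - y) = lf l x - lf l y := by
  unfold lf
  rw [← Finset.sum_sub_distrib]
  refine Finset.sum_congr rfl fun b _ => ?_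
  show l b * ((x - y) b.1 b.2) = _
  rw [Matrix.sub_apply, mul_sub]
  rfl

theorem lf_smul (l : B × B → ℂ) (a : ℂ) (x : Matrix B B ℂ) : lf l (a • x) = a * lf l x := by
  unfold lf
  rw [Finset.mul_sum]
  refine Finset.sum_congr rfl fun b _ => ?_
  rw [fl_smul, Pi.smul_apply, smul_eq_mul]
  ring

theorem PMn.lf {d : ℕ} {M : Matrix B B ℂ → Matrix B B ℂ} (h : PMn d M) (l : B × B → ℂ) :
    PFn d (fun x => lf l (M x)) := by
  unfold GP.lf
  refine PFn.sum _ fun b _ => ?_
  have h1 := (PFn.const (B := B) (l b)).mul (h b.1 b.2)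
  rw [zero_add] at h1
  exact h1

/-- relations of bounded degree over `K` at `c` hold on `Y` -/
def Rel (K : Subfield ℂ) (c : Matrix B B ℂ) (d : ℕ) (Y : Set (Matrix B B ℂ)) : Prop :=
  ∀ P : MvPolynomial (B × B) ℂ, (∀ m, P.coeff m ∈ K) → P.totalDegree ≤ d → MvPolynomial.eval (fl c) P = 0 →
    ∀ y ∈ Y, MvPolynomial.eval (fl y) P = 0

/-- relations of bounded degree over `K` on `T` hold on `Y` -/
def RelT (K : Subfield ℂ) (T : Set (Matrix B B ℂ)) (d : ℕ) (Y : Set (Matrix B B ℂ)) : Prop :=
  ∀ P : MvPolynomial (B × B) ℂ, (∀ m, P.coeff m ∈ K) → P.totalDegree ≤ d →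
    (∀ x ∈ T, MvPolynomial.eval (fl x) P = 0) → ∀ y ∈ Y, MvPolynomial.eval (fl y) P = 0

theorem Rel.relT {c : Matrix B B ℂ} {d : ℕ} {Y : Set (Matrix B B ℂ)} (h : Rel K c d Y) (hc : c ∈ T) : RelT K T d Y :=
  fun P h1 h2 h3 => h P h1 h2 (h3 c hc)

/-- relations of bounded degree on the subtorsor hold on `Y` -/
theorem transfer (hT : IsSubtorsor K T) {d : ℕ} {Y : Set (Matrix B B ℂ)}
    (hr : RelT K T d Y) {F : Matrix B B ℂ → ℂ} (hF : PFn d F) (hv : ∀ x ∈ T, F x = 0) :
    ∀ y ∈ Y, F y = 0 := by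
  classical
  obtain ⟨P, hP, hPF⟩ := hF
  intro y hy
  rw [hPF]
  let poly : (P.support → ℂ) →ₗ[ℂ] MvPolynomial (B × B) ℂ :=
    { toFun := fun a => ∑ m : P.support, MvPolynomial.monomial m.1 (a m)
      map_add' := by
        intro a b
        simp only [Pi.add_apply, map_add, Finset.sum_add_distrib]
      map_smul' := by
        intro z a
        simp only [Pi.smul_apply, smul_eq_mul, RingHom.id_apply, Finset.smul_sum, MvPolynomial.smul_monomial] }
  have hpoly : ∀ a, poly a = ∑ m : P.support, MvPolynomial.monomial m.1 (a m) := fun a => rfl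
  have hev : ∀ a (y : B × B → ℂ), MvPolynomial.eval y (poly a) =
      ∑ m : P.support, a m * m.1.prod fun i e => y i ^ e := by
    intro a y
    rw [hpoly, map_sum]
    refine Finset.sum_congr rfl fun m _ => ?_
    rw [MvPolynomial.eval_monomial]
  let W : Submodule ℂ (P.support → ℂ) :=
    { carrier := {a | ∀ x ∈ T, MvPolynomial.eval (fl x) (poly a) = 0}
      zero_mem' := by
        intro X _
        rw [map_zero, map_zero]
      add_mem' := by
        intro a b ha hb X hX
        rw [map_add, map_add, ha X hX, hb X hX, add_zero]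
      smul_mem' := by
        intro z a ha X hX
        rw [map_smul, MvPolynomial.smul_eval, ha X hX, mul_zero] }
  have hW : DefOver K W := by
    refine Pool.Agent.TH119.MX.defOver_of_aut W fun σ hσ a ha x hx => ?_
    have h1 : x.map σ.symm ∈ T := aut_mem hT (symm_fix hσ) hx
    have h2 := congrArg σ (ha _ h1)
    rw [map_zero, hev, map_sum] at h2
    rw [hev, ← h2]
    refine Finset.sum_congr rfl fun m _ => ?_
    rw [map_mul]
    congr 1
    rw [Finsupp.prod, Finsupp.prod, map_prod]
    refine Finset.prod_congr rfl fun i _ => ?_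
    rw [map_pow]
    congr 1
    show x i.1 i.2 = σ ((x.map σ.symm) i.1 i.2)
    simp
  have hPP : poly (fun m => P.coeff m.1) = P := by
    rw [hpoly]
    conv_rhs => rw [P.as_sum]
    exact Finset.sum_coe_sort P.support (fun m => MvPolynomial.monomial m (P.coeff m))
  have hPW : (fun m : P.support => P.coeff m.1) ∈ W := by
    intro X hX
    rw [hPP, ← hPF]
    exact hv X hX
  have key : ∀ a ∈ Submodule.span ℂ {w | w ∈ W ∧ ∀ a, w a ∈ K}, MvPolynomial.eval (fl y) (poly a) = 0 := by
    intro a ha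
    induction ha using Submodule.span_induction with
    | mem a ha =>
      obtain ⟨h1, h2⟩ := ha
      refine hr (poly a) ?_ ?_ h1 y hy
      · intro m
        rw [hpoly, MvPolynomial.coeff_sum]
        refine Subfield.sum_mem _ fun m' _ => ?_
        rw [MvPolynomial.coeff_monomial]
        split_ifs
        · exact h2 _
        · exact K.zero_mem
      · rw [hpoly]
        refine (MvPolynomial.totalDegree_finsetSum _ _).trans (Finset.sup_le fun m _ => ?_)
        refine (MvPolynomial.totalDegree_monomial_le _ _).trans ?_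
        exact (MvPolynomial.le_totalDegree m.2).trans hP
    | zero => rw [map_zero, map_zero]
    | add a b _ _ ha hb => rw [map_add, map_add, ha, hb, add_zero]
    | smul z a _ ha => rw [map_smul, MvPolynomial.smul_eval, ha, mul_zero]
  have := key _ (hW hPW)
  rwa [hPP] at this

end Pool.Agent.Q26.GP
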