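import Pool.Agent.Q26.GP.FamT

/-!
# Subtorsors over `K` in terms of polynomials over `K`, and the stabilisers of tensors
-/

set_option autoImplicit false
set_option linter.unusedSectionVars false

open Matrix

namespace Pool.Agent.Q26.GP

open Pool.Agent.TH127.PT Pool.Agent.Y123.ST Pool.Agent.TH119.DR

variable {B : Type} [Fintype B] [DecidableEq B] {K : Subfield ℂ} {T : Set (Matrix B B ℂ)}

/-- the value of a polynomial over `K` at a matrix -/
noncomputable def val (x : Matrix B B ℂ) (P : MvPolynomial (B × B) K) : ℂ :=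
  MvPolynomial.aeval (fun b : B × B => x b.1 b.2) P

theorem val_eq (x : Matrix B B ℂ) (P : MvPolynomial (B × B) K) :
    val x P = MvPolynomial.eval (fl x) (MvPolynomial.map (algebraMap K ℂ) P) := by
  unfold val
  rw [MvPolynomial.eval_map, MvPolynomial.aeval_def]
  rfl

/-- `K`-subtorsors -/
def SubT (K : Subfield ℂ) (T : Set (Matrix B B ℂ)) : Prop :=
  (∀ x ∈ T, ∀ y ∈ T, ∀ z ∈ T, x * y⁻¹ * z ∈ T) ∧
    ∃ I : Set (MvPolynomial (B × B) K), ∀ x : Matrix B B ℂ, x ∈ T ↔ IsUnit x ∧ ∀ P ∈ I, val x P = 0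

theorem subT_iff : SubT K T ↔ IsSubtorsor K T := by
  constructor
  · rintro ⟨h1, I, h2⟩
    refine ⟨fun x hx => ((h2 x).1 hx).1, h1, (MvPolynomial.map (algebraMap K ℂ)) '' I, ?_, fun x => ?_⟩
    · rintro _ ⟨p, -, rfl⟩ m
      rw [MvPolynomial.coeff_map]
      exact (p.coeff m).2
    · rw [h2]
      refine and_congr_right fun _ => ⟨?_, ?_⟩
      · rintro h _ ⟨p, hp, rfl⟩
        exact (val_eq x p).symm.trans (h p hp)
      · intro h p hp
        exact (val_eq x p).trans (h _ ⟨p, hp, rfl⟩)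
  · intro h
    obtain ⟨I, h1, h2⟩ := h.algebraic
    refine ⟨h.torsor, {p | MvPolynomial.map (algebraMap K ℂ) p ∈ I}, fun x => ?_⟩
    rw [h2]
    refine and_congr_right fun _ => ⟨?_, ?_⟩
    · intro h3 p hp
      exact (val_eq x p).trans (h3 _ hp)
    · intro h3 p hp
      obtain ⟨P0, hP0⟩ := exists_map p (h1 p hp)
      have h4 := h3 P0 (by rw [Set.mem_ofPred_eq, hP0]; exact hp)
      rw [val_eq, hP0] at h4
      exact h4

/-- the tensor power of a matrix -/
def tpw (p : ℕ) (x : Matrix B B ℂ) : Matrix (Fin p → B) (Fin p → B) ℂ :=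
  Matrix.of fun I J => ∏ i, x (I i) (J i)

theorem tpw_mul (p : ℕ) (x y : Matrix B B ℂ) : tpw p (x * y) = tpw p x * tpw p y := by
  ext I J
  simp only [tpw, Matrix.of_apply, Matrix.mul_apply]
  rw [Finset.prod_univ_sum]
  simp only [Fintype.piFinset_univ, Finset.prod_mul_distrib]

theorem tpw_one (p : ℕ) : tpw p (1 : Matrix B B ℂ) = 1 := by
  ext I J
  simp only [tpw, Matrix.of_apply, Matrix.one_apply]
  by_cases h : I = J
  · subst h
    simp
  · rw [if_neg h]
    obtain ⟨i, hi⟩ := Function.ne_iff.1 h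
    exact Finset.prod_eq_zero (Finset.mem_univ i) (if_neg hi)

/-- the polynomials -/
noncomputable def tpol (p q : ℕ) (a F : Matrix (Fin p → B) (Fin q → B) K) (e : (Fin p → B) × (Fin q → B)) :
    MvPolynomial (B × B) K :=
  ∑ I', (∏ i, MvPolynomial.X (e.1 i, I' i)) * MvPolynomial.C (a I' e.2) -
    ∑ J', MvPolynomial.C (F e.1 J') * ∏ i, MvPolynomial.X (J' i, e.2 i)

theorem val_tpol (p q : ℕ) (a F : Matrix (Fin p → B) (Fin q → B) K) (e : (Fin p → B) × (Fin q → B))
    (x : Matrix B B ℂ) : val x (tpol p q a F e) =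
      (tpw p x * a.map (algebraMap K ℂ) - F.map (algebraMap K ℂ) * tpw q x) e.1 e.2 := by
  unfold val tpol
  rw [map_sub, map_sum, map_sum, Matrix.sub_apply, Matrix.mul_apply, Matrix.mul_apply]
  congr 1
  · refine Finset.sum_congr rfl fun I' _ => ?_
    rw [map_mul, map_prod, MvPolynomial.aeval_C, Matrix.map_apply]
    congr 1
    exact Finset.prod_congr rfl fun i _ => MvPolynomial.aeval_X _ _
  · refine Finset.sum_congr rfl fun J' _ => ?_
    rw [map_mul, map_prod, MvPolynomial.aeval_C, Matrix.map_apply]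
    congr 1
    exact Finset.prod_congr rfl fun i _ => MvPolynomial.aeval_X _ _

/-- the isomorphisms which respect a tensor form a subtorsor -/
theorem tensor_sub (p q : ℕ) (a F : Matrix (Fin p → B) (Fin q → B) K) :
    SubT K {x : Matrix B B ℂ | IsUnit x ∧ tpw p x * a.map (algebraMap K ℂ) = F.map (algebraMap K ℂ) * tpw q x} := by
  constructor
  · rintro x ⟨hx, hx2⟩ y ⟨hy, hy2⟩ z ⟨hz, hz2⟩
    have hyi : IsUnit y⁻¹ := (Matrix.isUnit_nonsing_inv_iff).2 hy
    refine ⟨(hx.mul hyi).mul hz, ?_⟩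
    have hyy : y * y⁻¹ = 1 := mul_nonsing_inv _ ((isUnit_iff_isUnit_det y).1 hy)
    have hyy' : y⁻¹ * y = 1 := nonsing_inv_mul _ ((isUnit_iff_isUnit_det y).1 hy)
    have h1 : tpw p y⁻¹ * F.map (algebraMap K ℂ) = a.map (algebraMap K ℂ) * tpw q y⁻¹ := by
      calc tpw p y⁻¹ * F.map (algebraMap K ℂ) =
          tpw p y⁻¹ * (F.map (algebraMap K ℂ) * tpw q y) * tpw q y⁻¹ := by
            rw [Matrix.mul_assoc, Matrix.mul_assoc, ← tpw_mul, hyy, tpw_one, Matrix.mul_one]
        _ = (tpw p y⁻¹ * tpw p y) * a.map (algebraMap K ℂ) * tpw q y⁻¹ := by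
            rw [← hy2]
            simp only [Matrix.mul_assoc]
        _ = _ := by rw [← tpw_mul, hyy', tpw_one, Matrix.one_mul]
    rw [tpw_mul, tpw_mul, Matrix.mul_assoc, hz2, tpw_mul, tpw_mul]
    calc tpw p x * tpw p y⁻¹ * (F.map (algebraMap K ℂ) * tpw q z) =
        tpw p x * (tpw p y⁻¹ * F.map (algebraMap K ℂ)) * tpw q z := by simp only [Matrix.mul_assoc]
      _ = (tpw p x * a.map (algebraMap K ℂ)) * tpw q y⁻¹ * tpw q z := by
          rw [h1]
          simp only [Matrix.mul_assoc]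
      _ = _ := by
          rw [hx2]
          simp only [Matrix.mul_assoc]
  · refine ⟨Set.range (tpol p q a F), fun x => ?_⟩
    rw [Set.mem_ofPred_eq]
    refine and_congr_right fun _ => ?_
    rw [← sub_eq_zero]
    constructor
    · rintro h _ ⟨e, rfl⟩
      rw [val_tpol, h]
      rfl
    · intro h
      ext I J
      have := h _ ⟨(I, J), rfl⟩
      rwa [val_tpol] at this

/-- tensors are invariant under the group -/
theorem tensor_inv {c : Matrix B B ℂ} (hc : IsUnit c) {g : Submodule ℂ (Matrix B B ℂ)} (hs : Stb K c g) (p q : ℕ)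
    (a F : Matrix (Fin p → B) (Fin q → B) K)
    (h : tpw p c * a.map (algebraMap K ℂ) = F.map (algebraMap K ℂ) * tpw q c) {X : Matrix B B ℂ} (hX : X ∈ g) :
    tpw p (NormedSpace.exp X) * F.map (algebraMap K ℂ) = F.map (algebraMap K ℂ) * tpw q (NormedSpace.exp X) := by
  obtain ⟨-, h1⟩ := hs _ (subT_iff.1 (tensor_sub p q a F)) ⟨hc, h⟩ X hX c ⟨hc, h⟩
  rw [tpw_mul, tpw_mul, Matrix.mul_assoc, h, ← Matrix.mul_assoc, ← Matrix.mul_assoc] at h1
  have hcc : c * c⁻¹ = 1 := mul_nonsing_inv _ ((isUnit_iff_isUnit_det c).1 hc)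
  have h2 := congrArg (fun y => y * tpw q c⁻¹) h1
  simp only [Matrix.mul_assoc, ← tpw_mul, hcc] at h2
  rw [tpw_one, Matrix.mul_one, Matrix.mul_one] at h2
  exact h2

end Pool.Agent.Q26.GP
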